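import Pool.Agent.T9h50.AC.Chan

set_option autoImplicit false

/-! Frozen logarithmic neighbourhoods of coordinate axes which force absolutely continuous
spectrum. -/

namespace Pool.Agent.T9h50.AC

open Complex MeasureTheory Filter Pool.Agent.H12R2.And
open Pool.Agent.T9h50.GC (W dl inner_dl)
open Pool.Agent.TH980.IM (spm BT_spm)
open scoped Topology ENNReal InnerProductSpace

variable {m : ℕ}

/-- the sign `(-1) ^ (y_1 + ... + y_m)` -/
noncomputable def sn (y : V m) : ℂ := ((((∑ i, y i).negOnePow : ℤˣ) : ℤ) : ℂ)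

lemma sn_add (y : V m) (j : Fin m) : sn (y + ee j) = -sn y := by
  unfold sn
  have : ∑ i, (y + ee j) i = ∑ i, y i + 1 := by
    simp only [Pi.add_apply, Finset.sum_add_distrib]
    congr 1
    rw [Finset.sum_eq_single j]
    · simp [ee]
    · intro i _ h; simp [ee, Pi.single_eq_of_ne h]
    · intro h; exact absurd (Finset.mem_univ _) h
  rw [this, Int.negOnePow_succ]
  push_cast
  ring

lemma sn_sub (y : V m) (j : Fin m) : sn (y - ee j) = -sn y := by
  have := sn_add (y - ee j) j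
  rw [sub_add_cancel] at this
  rw [this, neg_neg]

lemma norm_sn (y : V m) : ‖sn y‖ = 1 := by
  unfold sn
  rcases Int.units_eq_one_or (∑ i, y i).negOnePow with h | h <;> rw [h] <;> simp

/-- the bound state of the reversed configuration -/
lemma Bd.neg {q : V m → Bool} {lam r A : ℝ} {χ : V m → ℂ} (hb : Bd q lam r A χ) :
    Bd (fun y => !q y) (4 * m - lam) r A (fun y => sn y * χ y) where
  r0 := hb.r0
  r1 := hb.r1
  A0 := hb.A0
  ne := by
    obtain ⟨y, hy⟩ := hb.ne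
    refine ⟨y, mul_ne_zero ?_ hy⟩
    rw [← norm_pos_iff, norm_sn]; norm_num
  dec := by
    intro y
    rw [norm_mul, norm_sn, one_mul]
    exact hb.dec y
  eq := by
    intro y
    have h1 := hb.eq y
    have h2 := hop_rearr q χ y
    have h3 := hop_rearr (fun y => !q y) (fun y => sn y * χ y) y
    have e1 : ∑ i : Fin m, (sn (y + ee i) * χ (y + ee i) + sn (y - ee i) * χ (y - ee i)) =
        -sn y * ∑ i : Fin m, (χ (y + ee i) + χ (y - ee i)) := by
      rw [Finset.mul_sum]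
      refine Finset.sum_congr rfl fun i _ => ?_
      rw [sn_add, sn_sub]; ring
    rw [e1, ← h2, h1] at h3
    have e2 : (if (!q y) = true then (1 : ℂ) else -1) = -(if q y = true then (1 : ℂ) else -1) := by
      cases q y <;> simp
    rw [e2] at h3
    push_cast
    linear_combination -h3

/-- the well -/
lemma exists_well {δ : ℝ} (hδ0 : 0 < δ) (hδ1 : δ ≤ 1) : ∃ (q : V m → Bool) (lam r A : ℝ) (χ : V m → ℂ),
    -1 ≤ lam ∧ lam ≤ -1 + δ ∧ Bd q lam r A χ := by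
  obtain ⟨s, lam, r, A, u, h1, h2, h3, h4, h5, h6, h7, h8⟩ := exists_state' (m := m) hδ0 hδ1
  exact ⟨well m s, lam, r, A, u, h4, h5, ⟨h1, h2, h3, h6, h7, h8⟩⟩

/-- the well of one site in dimension one -/
lemma one_site : ∃ (q : V 1 → Bool) (lam r A : ℝ) (χ : V 1 → ℂ),
    1 / 10 ≤ lam ∧ lam ≤ 1 / 2 ∧ Bd q lam r A χ := by
  set ρ : ℝ := Real.sqrt 2 - 1 with hρ
  have hs2 : Real.sqrt 2 ^ 2 = 2 := Real.sq_sqrt (by norm_num)
  have hs0 : 0 ≤ Real.sqrt 2 := Real.sqrt_nonneg 2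
  have hlow : 1.4 ≤ Real.sqrt 2 := by
    apply Real.le_sqrt_of_sq_le; norm_num
  have hupp : Real.sqrt 2 ≤ 1.42 := by
    rw [Real.sqrt_le_left (by norm_num)]; norm_num
  have hρ0 : 0 < ρ := by rw [hρ]; linarith
  have hρ1 : ρ < 1 := by rw [hρ]; linarith
  have hρe : ρ ^ 2 + 2 * ρ = 1 := by rw [hρ]; ring_nf; rw [hs2]; ring
  have hρc : (ρ : ℂ) ^ 2 + 2 * (ρ : ℂ) = 1 := by exact_mod_cast hρe
  refine ⟨fun y => decide (y 0 ≠ 0), 1 - 2 * ρ, ρ, 1, fun y => ((ρ ^ (y 0).natAbs : ℝ) : ℂ), ?_, ?_,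
    ⟨hρ0, hρ1, one_pos, ⟨0, by simp⟩, ?_, ?_⟩⟩
  · rw [hρ]; linarith
  · rw [hρ]; linarith
  · intro y
    simp only [Complex.norm_real, Real.norm_eq_abs, Fin.prod_univ_one, one_mul]
    rw [abs_of_pos (by positivity)]
  · intro y
    unfold hop
    rw [Fin.sum_univ_one]
    have e1 : (y + (ee 0 : V 1)) 0 = y 0 + 1 := by simp [ee]
    have e2 : (y - (ee 0 : V 1)) 0 = y 0 - 1 := by simp [ee]
    obtain ⟨t, ht⟩ : ∃ t, y 0 = t := ⟨_, rfl⟩
    simp only [e1, e2, decide_eq_true_eq, ht]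
    rcases lt_trichotomy t 0 with h | h | h
    · obtain ⟨k, hk⟩ : ∃ k : ℕ, t = -((k : ℤ) + 1) := ⟨(-t - 1).toNat, by omega⟩
      have n1 : t.natAbs = k + 1 := by omega
      have n2 : (t + 1).natAbs = k := by omega
      have n3 : (t - 1).natAbs = k + 2 := by omega
      rw [n1, n2, n3, if_pos (by omega)]
      push_cast
      linear_combination ((ρ : ℂ) ^ k) * hρc
    · rw [h]
      rw [if_neg (by simp)]
      simp
      try ring
    · obtain ⟨k, hk⟩ : ∃ k : ℕ, t = (k : ℤ) + 1 := ⟨(t - 1).toNat, by omega⟩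
      have n1 : t.natAbs = k + 1 := by omega
      have n2 : (t + 1).natAbs = k + 2 := by omega
      have n3 : (t - 1).natAbs = k := by omega
      rw [n1, n2, n3, if_pos (by omega)]
      push_cast
      linear_combination ((ρ : ℂ) ^ k) * hρc

/-- some spectral measure is not singular on `(a, b)` -/
def ACon {d : ℕ} (H : W d →L[ℂ] W d) (a b : ℝ) : Prop :=
  ∃ (ψ : W d) (μ : Measure ℝ), IsFiniteMeasure μ ∧
    (∀ z : ℂ, z.im ≠ 0 → ∫ x, ((x : ℂ) - z)⁻¹ ∂μ = inner ℂ ψ (Rz H z ψ)) ∧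
    ¬ (μ.restrict (Set.Ioo a b)) ⟂ₘ volume

lemma ACon.mono {d : ℕ} {H : W d →L[ℂ] W d} {a b a' b' : ℝ} (h : ACon H a' b') (ha : a ≤ a')
    (hb : b' ≤ b) : ACon H a b := by
  obtain ⟨ψ, μ, h1, h2, h3⟩ := h
  exact ⟨ψ, μ, h1, h2, fun hc => h3 (hc.mono (Measure.restrict_mono (Set.Ioo_subset_Ioo ha hb) le_rfl)
    le_rfl)⟩

theorem channel' {ω : V (m + 1) → Bool} {H : W (m + 1) →L[ℂ] W (m + 1)} (hH : IsH ω H)
    {q : V m → Bool} {lam r A : ℝ} {χ : V m → ℂ} (hb : Bd q lam r A χ)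
    (i0 : Fin (m + 1)) (R : ℕ) {σ : ℤ} (hσ : σ = 1 ∨ σ = -1)
    (hch : ∀ x : V (m + 1), (R : ℤ) < σ * x i0 →
      (∀ i : Fin m, |(x (i0.succAbove i) : ℝ)| ≤ cc r * Real.log (2 + |(x i0 : ℝ)|)) →
        ω x = q (tl i0 x))
    {α β : ℝ} (hαβ : α < β) (h1 : lam ≤ α) (h2 : β ≤ lam + 4) : ACon H α β := by
  obtain ⟨x, hx⟩ := channel hH hb i0 R hσ hch hαβ h1 h2
  exact ⟨dl x, spm hH.isSelfAdjoint (dl x), inferInstance,
    fun z hz => BT_spm hH.isSelfAdjoint (dl x) hz, hx⟩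

/-- general dimension: a neighbourhood of one axis -/
theorem general {δ : ℝ} (hδ : 0 < δ) : ∃ (C : ℝ) (F : Set (V (m + 1))) (p : V (m + 1) → Bool),
    (∀ x ∈ F, ∀ i : Fin m, |(x i.succ : ℝ)| ≤ C * Real.log (2 + |(x 0 : ℝ)|)) ∧
    ∀ ω : V (m + 1) → Bool, (∀ x ∈ F, ω x = p x) →
      ∀ H : W (m + 1) →L[ℂ] W (m + 1), IsH ω H → ∀ a b : ℝ, a < b →
        ((-1 + δ ≤ a ∧ b ≤ 3) ∨ (4 * (m : ℝ) + 1 ≤ a ∧ b ≤ 4 * m + 5 - δ)) → ACon H a b := by
  obtain ⟨q, lam, r, A, χ, h1, h2, hb⟩ := exists_well (m := m) (δ := min δ 1)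
    (lt_min hδ one_pos) (min_le_right _ _)
  have h2' : lam ≤ -1 + δ := h2.trans (by linarith [min_le_left δ 1])
  have hsucc : ∀ i : Fin m, (0 : Fin (m + 1)).succAbove i = i.succ := fun i => Fin.zero_succAbove i
  refine ⟨cc r, {x | ∀ i : Fin m, |(x i.succ : ℝ)| ≤ cc r * Real.log (2 + |(x 0 : ℝ)|)},
    fun x => if 0 < x 0 then q (tl 0 x) else !q (tl 0 x), fun x hx => hx, ?_⟩
  intro ω hω H hH a b hab h
  rcases h with ⟨ha, hb'⟩ | ⟨ha, hb'⟩
  · refine channel' hH hb 0 0 (σ := 1) (Or.inl rfl) ?_ hab (by linarith) (by linarith)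
    intro x hx hx2
    simp only [hsucc] at hx2
    rw [hω x hx2]
    simp only
    rw [if_pos (by push_cast at hx; omega)]
  · refine channel' hH hb.neg 0 0 (σ := -1) (Or.inr rfl) ?_ hab (by linarith) (by linarith)
    intro x hx hx2
    simp only [hsucc] at hx2
    rw [hω x hx2]
    simp only
    rw [if_neg (by push_cast at hx; omega)]

lemma cc_pos {r : ℝ} (h0 : 0 < r) (h1 : r < 1) : 0 < cc r := by
  have hs0 : 0 < Real.sqrt r := Real.sqrt_pos.2 h0
  have hs1 : Real.sqrt r < 1 := by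
    rw [Real.sqrt_lt' one_pos]; simpa using h1
  have := Real.log_neg hs0 hs1
  unfold cc
  exact div_pos_of_neg_of_neg (by norm_num) this

lemma log_small {C : ℝ} (hC : 0 ≤ C) : ∃ R : ℕ, ∀ t : ℝ, (R : ℝ) < t → C * Real.log (2 + t) < t := by
  have h := Real.isLittleO_log_id_atTop.comp_tendsto (tendsto_atTop_add_const_left atTop 2 tendsto_id)
  have h1 := h.bound (c := 1 / (2 * (C + 1))) (by positivity)
  obtain ⟨T, hT⟩ := (h1.and (eventually_gt_atTop 2)).exists_forall_of_atTop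
  obtain ⟨R, hR⟩ := exists_nat_gt T
  refine ⟨R, fun t ht => ?_⟩
  obtain ⟨h2, h3⟩ := hT t (by linarith)
  simp only [Function.comp, id, Real.norm_eq_abs] at h2
  rw [abs_of_pos (by linarith : 0 < 2 + t)] at h2
  have h4 : C * Real.log (2 + t) ≤ C * (1 / (2 * (C + 1)) * (2 + t)) :=
    mul_le_mul_of_nonneg_left ((le_abs_self _).trans h2) hC
  have h5 : C * (1 / (2 * (C + 1)) * (2 + t)) ≤ (2 + t) / 2 := by
    have : C / (C + 1) ≤ 1 := by rw [div_le_one (by linarith)]; linarith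
    calc C * (1 / (2 * (C + 1)) * (2 + t)) = (C / (C + 1)) * ((2 + t) / 2) := by
          field_simp
      _ ≤ 1 * ((2 + t) / 2) := by
          apply mul_le_mul_of_nonneg_right this; linarith
      _ = _ := one_mul _
  linarith

/-- the plane: a neighbourhood of both axes and all energies -/
theorem plane {δ : ℝ} (hδ : 0 < δ) : ∃ (C : ℝ) (F : Set (V 2)) (p : V 2 → Bool),
    (∀ x ∈ F, |(x 1 : ℝ)| ≤ C * Real.log (2 + |(x 0 : ℝ)|) ∨
      |(x 0 : ℝ)| ≤ C * Real.log (2 + |(x 1 : ℝ)|)) ∧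
    ∀ ω : V 2 → Bool, (∀ x ∈ F, ω x = p x) →
      ∀ H : W 2 →L[ℂ] W 2, IsH ω H → ∀ a b : ℝ, a < b → -1 + δ ≤ a → b ≤ 9 - δ → ACon H a b := by
  classical
  obtain ⟨q, lam, r, A, χ, h1, h2, hb⟩ := exists_well (m := 1) (δ := min δ 1)
    (lt_min hδ one_pos) (min_le_right _ _)
  have h2' : lam ≤ -1 + δ := h2.trans (by linarith [min_le_left δ 1])
  have h2'' : lam ≤ 0 := h2.trans (by linarith [min_le_right δ 1])
  obtain ⟨q1, lam1, r1, A1, χ1, g1, g2, hb1⟩ := one_site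
  set C : ℝ := max (cc r) (cc r1) with hC
  have hC0 : 0 < C := (cc_pos hb.r0 hb.r1).trans_le (le_max_left _ _)
  have hCr : cc r ≤ C := le_max_left _ _
  have hCr1 : cc r1 ≤ C := le_max_right _ _
  obtain ⟨R, hR⟩ := log_small hC0.le
  have hlog : ∀ t : ℝ, 0 ≤ Real.log (2 + |t|) := fun t =>
    Real.log_nonneg (by linarith [abs_nonneg t])
  set F : Set (V 2) := {x | ((R : ℝ) < |(x 0 : ℝ)| ∧ |(x 1 : ℝ)| ≤ C * Real.log (2 + |(x 0 : ℝ)|)) ∨
    ((R : ℝ) < |(x 1 : ℝ)| ∧ |(x 0 : ℝ)| ≤ C * Real.log (2 + |(x 1 : ℝ)|))} with hF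
  set p : V 2 → Bool := fun x => if |(x 1 : ℝ)| ≤ C * Real.log (2 + |(x 0 : ℝ)|) then
    (if 0 < x 0 then q (tl 0 x) else !q (tl 0 x)) else
    (if 0 < x 1 then q1 (tl 1 x) else !q1 (tl 1 x)) with hp
  refine ⟨C, F, p, fun x hx => hx.imp And.right And.right, ?_⟩
  intro ω hω H hH
  have hor : ∀ x : V 2, (R : ℤ) < |x 0| → (∀ i : Fin 1, |(x ((0 : Fin 2).succAbove i) : ℝ)| ≤
      cc r * Real.log (2 + |(x 0 : ℝ)|)) → ω x = if 0 < x 0 then q (tl 0 x) else !q (tl 0 x) := by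
    intro x hx hx2
    have e : |(x 1 : ℝ)| ≤ C * Real.log (2 + |(x 0 : ℝ)|) :=
      (hx2 0).trans (mul_le_mul_of_nonneg_right hCr (hlog _))
    have hxR : (R : ℝ) < |(x 0 : ℝ)| := by exact_mod_cast hx
    rw [hω x (Or.inl ⟨hxR, e⟩), hp]
    simp only
    rw [if_pos e]
  have ver : ∀ x : V 2, (R : ℤ) < |x 1| → (∀ i : Fin 1, |(x ((1 : Fin 2).succAbove i) : ℝ)| ≤
      cc r1 * Real.log (2 + |(x 1 : ℝ)|)) → ω x = if 0 < x 1 then q1 (tl 1 x) else !q1 (tl 1 x) := by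
    intro x hx hx2
    have e : |(x 0 : ℝ)| ≤ C * Real.log (2 + |(x 1 : ℝ)|) :=
      (hx2 0).trans (mul_le_mul_of_nonneg_right hCr1 (hlog _))
    have hxR : (R : ℝ) < |(x 1 : ℝ)| := by exact_mod_cast hx
    have e3 := hR _ hxR
    have e4 : ¬ |(x 1 : ℝ)| ≤ C * Real.log (2 + |(x 0 : ℝ)|) := by
      rw [not_le]
      refine lt_of_le_of_lt ?_ e3
      apply mul_le_mul_of_nonneg_left _ hC0.le
      apply Real.log_le_log (by positivity)
      linarith
    rw [hω x (Or.inr ⟨hxR, e⟩), hp]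
    simp only
    rw [if_neg e4]
  have c1 : ∀ a b : ℝ, a < b → -1 + δ ≤ a → b ≤ 3 → ACon H a b := by
    intro a b hab ha hb'
    refine channel' hH hb 0 R (σ := 1) (Or.inl rfl) ?_ hab (by linarith) (by linarith)
    intro x hx hx2
    rw [one_mul] at hx
    rw [hor x (hx.trans_le (le_abs_self _)) hx2, if_pos (by omega)]
  have c4 : ∀ a b : ℝ, a < b → 5 ≤ a → b ≤ 9 - δ → ACon H a b := by
    intro a b hab ha hb'
    refine channel' hH hb.neg 0 R (σ := -1) (Or.inr rfl) ?_ hab (by push_cast; linarith)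
      (by push_cast; linarith)
    intro x hx hx2
    rw [neg_one_mul] at hx
    rw [hor x (hx.trans_le (neg_le_abs _)) hx2, if_neg (by omega)]
  have c2 : ∀ a b : ℝ, a < b → 1 ≤ a → b ≤ 4.1 → ACon H a b := by
    intro a b hab ha hb'
    refine channel' hH hb1 1 R (σ := 1) (Or.inl rfl) ?_ hab (by linarith) (by linarith)
    intro x hx hx2
    rw [one_mul] at hx
    rw [ver x (hx.trans_le (le_abs_self _)) hx2, if_pos (by omega)]
  have c3 : ∀ a b : ℝ, a < b → 3.9 ≤ a → b ≤ 7.5 → ACon H a b := by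
    intro a b hab ha hb'
    refine channel' hH hb1.neg 1 R (σ := -1) (Or.inr rfl) ?_ hab (by push_cast; linarith)
      (by push_cast; linarith)
    intro x hx hx2
    rw [neg_one_mul] at hx
    rw [ver x (hx.trans_le (neg_le_abs _)) hx2, if_neg (by omega)]
  intro a b hab ha hb'
  rcases lt_or_ge a 2 with h | h
  · exact (c1 a (min b 3) (lt_min hab (by linarith)) ha (min_le_right _ _)).mono le_rfl (min_le_left _ _)
  rcases lt_or_ge a 4 with h' | h'
  · exact (c2 a (min b 4.1) (lt_min hab (by linarith)) (by linarith) (min_le_right _ _)).mono le_rfl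
      (min_le_left _ _)
  rcases lt_or_ge a 6 with h'' | h''
  · exact (c3 a (min b 7.5) (lt_min hab (by linarith)) (by linarith) (min_le_right _ _)).mono le_rfl
      (min_le_left _ _)
  exact c4 a b hab (by linarith) hb'

end Pool.Agent.T9h50.AC
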