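import Pool.Agent.H12R2.And4

set_option autoImplicit false

/-! A low eigenvalue of a potential well in a large cube. -/

namespace Pool.Agent.T9h50.AC

open Finset Complex MeasureTheory Filter Pool.Agent.H12R2.And
open scoped Topology InnerProductSpace

variable {m : ℕ}

open Classical in
/-- the potential: `-1` in the well, `+1` outside -/
noncomputable def well (m s : ℕ) (x : V m) : Bool := decide (x ∉ Q (0 : V m) s)

lemma well_in {s : ℕ} {x : V m} (hx : x ∈ Q (0 : V m) s) : well m s x = false := by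
  unfold well; simp [hx]

lemma well_out {s : ℕ} {x : V m} (hx : x ∉ Q (0 : V m) s) : well m s x = true := by
  unfold well; simp [hx]

open Classical in
/-- the indicator of the well -/
noncomputable def ind (m s : ℕ) (x : V m) : ℂ := if x ∈ Q (0 : V m) s then 1 else 0

lemma hop_ind {s : ℕ} (hs : 1 ≤ s) {x : V m} (hx : x ∈ Q (0 : V m) s) :
    ∃ r : ℝ, hop (well m s) (ind m s) x = (r : ℂ) ∧
      r ≤ (if x ∈ Q (0 : V m) (s - 1) then 0 else 2 * (m : ℝ)) - 1 := by
  classical
  set f : V m → ℝ := fun y => if y ∈ Q (0 : V m) s then 1 else 0 with hf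
  have hfc : ∀ y, ind m s y = (f y : ℂ) := by
    intro y; unfold ind; simp only [hf]; split_ifs <;> simp
  have hfx : f x = 1 := by simp [hf, hx]
  refine ⟨(∑ i : Fin m, ((1 - f (x + ee i)) + (1 - f (x - ee i)))) - 1, ?_, ?_⟩
  · unfold hop
    rw [well_in hx, hfc x, hfx, ← Finset.sum_neg_distrib]
    have h1 : ∀ i : Fin m, -(ind m s (x + ee i) - ((1 : ℝ) : ℂ) + (ind m s (x - ee i) - ((1 : ℝ) : ℂ))) =
        (((1 - f (x + ee i)) + (1 - f (x - ee i)) : ℝ) : ℂ) := by
      intro i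
      rw [hfc, hfc]
      push_cast
      ring
    rw [Finset.sum_congr rfl fun i _ => h1 i]
    push_cast
    simp
    ring
  · apply sub_le_sub_right
    by_cases h1 : x ∈ Q (0 : V m) (s - 1)
    · rw [if_pos h1]
      apply le_of_eq
      apply Finset.sum_eq_zero
      intro i _
      have hs1 : s - 1 + 1 ≤ s := by omega
      have h2 : x + ee i ∈ Q (0 : V m) s := Q_mono hs1 (Q_trans h1 (add_ee_mem x i))
      have h3 : x - ee i ∈ Q (0 : V m) s := Q_mono hs1 (Q_trans h1 (sub_ee_mem x i))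
      simp [hf, h2, h3]
    · rw [if_neg h1]
      have hle : ∀ y, 1 - f y ≤ 1 := by
        intro y; simp only [hf]; split_ifs <;> norm_num
      calc ∑ i : Fin m, ((1 - f (x + ee i)) + (1 - f (x - ee i))) ≤ ∑ _i : Fin m, (2 : ℝ) :=
            Finset.sum_le_sum fun i _ => by linarith [hle (x + ee i), hle (x - ee i)]
        _ = 2 * m := by simp; ring

lemma card_ineq {s : ℕ} (hs : 1 ≤ s) {δ : ℝ} (hδ : 4 * (m : ℝ) ^ 2 ≤ δ * (2 * s + 1)) :
    2 * (m : ℝ) * (((Q (0 : V m) s).card : ℝ) - (Q (0 : V m) (s - 1)).card)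
    ≤ δ * ((Q (0 : V m) s).card : ℝ) := by
  rw [card_Q, card_Q]
  have e1 : 2 * (s - 1) + 1 = 2 * s - 1 := by omega
  rw [e1]
  set S : ℝ := 2 * (s : ℝ) + 1 with hS
  have hs' : (1 : ℝ) ≤ s := by exact_mod_cast hs
  have hS0 : 0 < S := by rw [hS]; positivity
  have e2 : (((2 * s + 1) ^ m : ℕ) : ℝ) = S ^ m := by push_cast; rfl
  have e3 : (((2 * s - 1) ^ m : ℕ) : ℝ) = (S - 2) ^ m := by
    rw [Nat.cast_pow, Nat.cast_sub (by omega)]
    push_cast
    congr 1
    rw [hS]; ring
  rw [e2, e3]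
  have h1 : 1 + (m : ℝ) * (-(2 / S)) ≤ (1 + -(2 / S)) ^ m := by
    apply one_add_mul_le_pow
    have : 2 / S ≤ 1 := by
      rw [div_le_one hS0]; linarith
    linarith
  have h2 : (S - 2) ^ m = S ^ m * (1 + -(2 / S)) ^ m := by
    rw [← mul_pow]; congr 1; field_simp; ring
  rw [h2]
  have hSm : 0 < S ^ m := by positivity
  have h3 : S ^ m - S ^ m * (1 + -(2 / S)) ^ m ≤ S ^ m * (m * (2 / S)) := by nlinarith
  have hm0 : (0 : ℝ) ≤ m := Nat.cast_nonneg m
  have h4 : 4 * (m : ℝ) ^ 2 / S ≤ δ := by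
    rw [div_le_iff₀ hS0]; exact hδ
  calc 2 * (m : ℝ) * (S ^ m - S ^ m * (1 + -(2 / S)) ^ m) ≤ 2 * m * (S ^ m * (m * (2 / S))) :=
        mul_le_mul_of_nonneg_left h3 (by positivity)
    _ = (4 * m ^ 2 / S) * S ^ m := by ring
    _ ≤ δ * S ^ m := mul_le_mul_of_nonneg_right h4 hSm.le

/-- a low eigenvalue of the restriction to a large cube -/
lemma low_ev {s : ℕ} (hs : 1 ≤ s) {δ : ℝ} (hδ : 4 * (m : ℝ) ^ 2 ≤ δ * (2 * s + 1))
    {n : ℕ} (hn : s ≤ n) : ∃ (lam : ℝ) (v : V m → ℂ), lam ≤ -1 + δ ∧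
    (∀ x ∉ Q (0 : V m) n, v x = 0) ∧ (∃ x, v x ≠ 0) ∧
    ∀ x ∈ Q (0 : V m) n, hop (well m s) v x = (lam : ℂ) * v x := by
  classical
  set D := Q (0 : V m) n with hD
  have hne : Nonempty D := ⟨⟨0, self_mem_Q _ _⟩⟩
  have hnt : Nontrivial (EuclideanSpace ℂ D) := inferInstance
  set T := TT (well m s) D with hT
  have hsym : T.IsSymmetric := TT_symm (well m s) D
  have hev := hsym.hasEigenvalue_iInf_of_finiteDimensional
  set lam : ℝ := ⨅ x : { x : EuclideanSpace ℂ D // x ≠ 0 },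
    RCLike.re (inner ℂ (T x) (x : EuclideanSpace ℂ D)) / ‖(x : EuclideanSpace ℂ D)‖ ^ 2 with hlam
  have hbdd : BddBelow (Set.range fun x : { x : EuclideanSpace ℂ D // x ≠ 0 } =>
      RCLike.re (inner ℂ (T x) (x : EuclideanSpace ℂ D)) / ‖(x : EuclideanSpace ℂ D)‖ ^ 2) := by
    refine ⟨-‖LinearMap.toContinuousLinearMap T‖, ?_⟩
    rintro _ ⟨⟨x, hx⟩, rfl⟩
    have hx0 : 0 < ‖x‖ ^ 2 := by positivity
    simp only
    rw [le_div_iff₀ hx0]
    have h1 : ‖T x‖ ≤ ‖LinearMap.toContinuousLinearMap T‖ * ‖x‖ :=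
      (LinearMap.toContinuousLinearMap T).le_opNorm x
    have h2 : |RCLike.re (inner ℂ (T x) x)| ≤ ‖T x‖ * ‖x‖ :=
      (RCLike.abs_re_le_norm _).trans (norm_inner_le_norm _ _)
    have h3 := neg_abs_le (RCLike.re (inner ℂ (T x) x))
    nlinarith [norm_nonneg x]
  have hle : lam ≤ -1 + δ := by
    set w : EuclideanSpace ℂ D := WithLp.toLp 2 fun y : D => ind m s y with hw
    have hsub : Q (0 : V m) s ⊆ D := Q_mono hn
    have hsub1 : Q (0 : V m) (s - 1) ⊆ Q (0 : V m) s := Q_mono (by omega)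
    have hind0 : ∀ x ∉ D, ind m s x = 0 := by
      intro x hx; unfold ind; rw [if_neg (fun h => hx (hsub h))]
    have hnorm : ‖w‖ ^ 2 = ((Q (0 : V m) s).card : ℝ) := by
      rw [EuclideanSpace.norm_sq_eq]
      have h1 : ∑ y : D, ‖w y‖ ^ 2 = ∑ y ∈ D, (if y ∈ Q (0 : V m) s then (1 : ℝ) else 0) := by
        rw [← Finset.sum_coe_sort D]
        refine Finset.sum_congr rfl fun y _ => ?_
        change ‖ind m s y‖ ^ 2 = _
        unfold ind
        split_ifs <;> simp
      rw [h1, Finset.sum_ite_mem, Finset.inter_eq_right.2 hsub]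
      simp
    have hcard0 : 0 < (Q (0 : V m) s).card := Finset.card_pos.2 ⟨0, self_mem_Q _ _⟩
    have hw0 : w ≠ 0 := by
      intro h0
      rw [h0] at hnorm
      simp at hnorm
      have : ((Q (0 : V m) s).card : ℝ) ≠ 0 := by exact_mod_cast hcard0.ne'
      exact this (by exact_mod_cast hnorm.symm)
    have hRay : RCLike.re (inner ℂ (T w) w) ≤ (-1 + δ) * ‖w‖ ^ 2 := by
      have h1 : inner ℂ (T w) w = ∑ y : D, (starRingEnd ℂ) ((T w) y) * w y := by
        rw [PiLp.inner_apply]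
        refine Finset.sum_congr rfl fun y _ => ?_
        rw [RCLike.inner_apply, mul_comm]
      have h2 : ∀ y : D, (starRingEnd ℂ) ((T w) y) * w y =
          (fun y : V m => (starRingEnd ℂ) (hop (well m s) (ind m s) y) * ind m s y) y := by
        intro y
        rw [hT, hw, TT_apply (well m s) D (ind m s) hind0 y]
      rw [h1, Finset.sum_congr rfl fun y _ => h2 y, Finset.sum_coe_sort D
        (fun y : V m => (starRingEnd ℂ) (hop (well m s) (ind m s) y) * ind m s y), map_sum]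
      have h3 : ∀ y ∈ D, RCLike.re ((starRingEnd ℂ) (hop (well m s) (ind m s) y) * ind m s y) ≤
          if y ∈ Q (0 : V m) s then
            (if y ∈ Q (0 : V m) (s - 1) then 0 else 2 * (m : ℝ)) - 1 else 0 := by
        intro y _
        by_cases hy : y ∈ Q (0 : V m) s
        · obtain ⟨r, hr1, hr2⟩ := hop_ind hs hy
          rw [if_pos hy, hr1]
          unfold ind
          rw [if_pos hy]
          simpa using hr2
        · rw [if_neg hy]
          unfold ind
          rw [if_neg hy]; simp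
      refine (Finset.sum_le_sum h3).trans ?_
      rw [Finset.sum_ite_mem, Finset.inter_eq_right.2 hsub, Finset.sum_sub_distrib]
      have h4 : ∑ y ∈ Q (0 : V m) s, (if y ∈ Q (0 : V m) (s - 1) then 0 else 2 * (m : ℝ))
          = 2 * m * (((Q (0 : V m) s).card : ℝ) - (Q (0 : V m) (s - 1)).card) := by
        have h5 : ∀ y, (if y ∈ Q (0 : V m) (s - 1) then 0 else 2 * (m : ℝ)) =
            2 * m - (if y ∈ Q (0 : V m) (s - 1) then 2 * (m : ℝ) else 0) := by
          intro y; split_ifs <;> ring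
        simp only [h5]
        rw [Finset.sum_sub_distrib, Finset.sum_ite_mem, Finset.inter_eq_right.2 hsub1]
        simp; ring
      rw [h4, hnorm]
      have := card_ineq (m := m) hs hδ
      simp only [Finset.sum_const, nsmul_eq_mul, mul_one]
      linarith
    have hwn : 0 < ‖w‖ ^ 2 := by positivity
    refine (ciInf_le hbdd ⟨w, hw0⟩).trans ?_
    simp only
    rw [div_le_iff₀ hwn]
    exact hRay
  obtain ⟨e, he⟩ := hev.exists_hasEigenvector
  set v : V m → ℂ := fun x => if h : x ∈ D then e ⟨x, h⟩ else 0 with hv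
  have hv0 : ∀ x ∉ D, v x = 0 := fun x hx => by simp [hv, hx]
  have hve : (WithLp.toLp 2 fun y : D => v y) = e := by
    ext y
    simp [hv]
  refine ⟨lam, v, hle, hv0, ?_, ?_⟩
  · by_contra hc
    push Not at hc
    apply he.2
    rw [← hve]
    ext y
    simp [hc]
  · intro x hx
    have h1 := TT_apply (well m s) D v hv0 ⟨x, hx⟩
    rw [hve] at h1
    have h2 := he.apply_eq_smul
    change TT (well m s) D e = _ at h2
    rw [h2] at h1
    rw [← h1]
    simp [hv, hx]

end Pool.Agent.T9h50.AC
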