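import Pool.Agent.T9h50.AC.Bound

set_option autoImplicit false

/-! An exponentially localised bound state of a potential well on the whole lattice. -/

namespace Pool.Agent.T9h50.AC

open Finset Complex MeasureTheory Filter Pool.Agent.H12R2.And
open scoped Topology InnerProductSpace

variable {m : ℕ}

/-- the decay rate -/
noncomputable def qq (m : ℕ) : ℝ := 2 * m / (2 * m + 1)

lemma qq_nonneg : 0 ≤ qq m := by unfold qq; positivity

lemma qq_lt_one : qq m < 1 := by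
  unfold qq
  rw [div_lt_one (by positivity)]
  linarith

lemma hop_rearr (ω : V m → Bool) (v : V m → ℂ) (x : V m) :
    (2 * (m : ℂ) + (if ω x then (1 : ℂ) else -1)) * v x - hop ω v x =
      ∑ i : Fin m, (v (x + ee i) + v (x - ee i)) := by
  unfold hop
  have h1 : ∑ i : Fin m, ((v (x + ee i) - v x) + (v (x - ee i) - v x)) =
      ∑ i : Fin m, (v (x + ee i) + v (x - ee i)) - 2 * (m : ℂ) * v x := by
    have : ∀ i : Fin m, ((v (x + ee i) - v x) + (v (x - ee i) - v x)) =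
        (v (x + ee i) + v (x - ee i)) - 2 * v x := fun i => by ring
    rw [Finset.sum_congr rfl fun i _ => this i, Finset.sum_sub_distrib]
    simp only [Finset.sum_const, Finset.card_univ, Fintype.card_fin, nsmul_eq_mul]
    ring
  rw [h1]
  ring

lemma norm_nbr {v : V m → ℂ} {B : ℝ} {x : V m}
    (hn : ∀ i, ‖v (x + ee i)‖ ≤ B ∧ ‖v (x - ee i)‖ ≤ B) :
    ‖∑ i : Fin m, (v (x + ee i) + v (x - ee i))‖ ≤ 2 * m * B := by
  refine (norm_sum_le _ _).trans ?_
  calc ∑ i : Fin m, ‖v (x + ee i) + v (x - ee i)‖ ≤ ∑ _i : Fin m, (2 * B) :=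
        Finset.sum_le_sum fun i _ => (norm_add_le _ _).trans (by linarith [(hn i).1, (hn i).2])
    _ = 2 * m * B := by simp; ring

/-- one step of the maximum principle -/
lemma step {s : ℕ} {lam : ℝ} (hlam : lam ≤ 0) {v : V m → ℂ} {B : ℝ} (hB : 0 ≤ B) {x : V m}
    (hx : x ∉ Q (0 : V m) s) (hv : hop (well m s) v x = (lam : ℂ) * v x ∨ v x = 0)
    (hn : ∀ i, ‖v (x + ee i)‖ ≤ B ∧ ‖v (x - ee i)‖ ≤ B) : ‖v x‖ ≤ qq m * B := by
  rcases hv with hv | hv
  swap
  · rw [hv, norm_zero]; exact mul_nonneg qq_nonneg hB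
  have h1 := hop_rearr (well m s) v x
  rw [well_out hx, hv] at h1
  have h2 : (((2 * m + 1 - lam : ℝ)) : ℂ) * v x = ∑ i : Fin m, (v (x + ee i) + v (x - ee i)) := by
    rw [← h1]; push_cast; simp; ring
  have hm0 : (0 : ℝ) ≤ m := Nat.cast_nonneg m
  have hpos : (0 : ℝ) < 2 * m + 1 - lam := by linarith
  have h3 := norm_nbr hn
  rw [← h2, norm_mul, Complex.norm_real, Real.norm_eq_abs, abs_of_pos hpos] at h3
  have h4 : (2 * (m : ℝ) + 1) * ‖v x‖ ≤ 2 * m * B := by
    refine le_trans ?_ h3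
    gcongr
    linarith
  unfold qq
  rw [div_mul_eq_mul_div, le_div_iff₀ (by positivity)]
  linarith

lemma nbr_not_mem {n : ℕ} {x : V m} (hx : x ∉ Q (0 : V m) (n + 1)) (i : Fin m) :
    x + ee i ∉ Q (0 : V m) n ∧ x - ee i ∉ Q (0 : V m) n := by
  constructor
  · intro h
    apply hx
    have := Q_trans h (sub_ee_mem (x + ee i) i)
    rwa [add_sub_cancel_right] at this
  · intro h
    apply hx
    have := Q_trans h (add_ee_mem (x - ee i) i)
    rwa [sub_add_cancel] at this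

/-- exponential decay away from the well -/
lemma decay {s : ℕ} {lam : ℝ} (hlam : lam ≤ 0) {v : V m → ℂ} (hM : ∀ x, ‖v x‖ ≤ 1)
    (hv : ∀ x, hop (well m s) v x = (lam : ℂ) * v x ∨ v x = 0) :
    ∀ (j : ℕ) (x : V m), x ∉ Q (0 : V m) (s + j) → ‖v x‖ ≤ qq m ^ (j + 1) := by
  intro j
  induction j with
  | zero =>
    intro x hx
    have := step hlam (zero_le_one) hx (hv x) fun i => ⟨hM _, hM _⟩
    simpa using this
  | succ j ih =>
    intro x hx
    have hx' : x ∉ Q (0 : V m) s := fun h => hx (Q_mono (by omega) h)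
    have hnb := nbr_not_mem (n := s + j) (x := x) (by rwa [add_assoc])
    have := step hlam (pow_nonneg qq_nonneg (j + 1)) hx' (hv x)
      fun i => ⟨ih _ (hnb i).1, ih _ (hnb i).2⟩
    rw [pow_succ' _ (j + 1)]
    exact this

/-- a normalised low eigenvector in a large cube -/
lemma box_state {s : ℕ} (hs : 1 ≤ s) {δ : ℝ} (hδ : 4 * (m : ℝ) ^ 2 ≤ δ * (2 * s + 1)) (hδ1 : δ ≤ 1)
    {n : ℕ} (hn : s ≤ n) : ∃ (lam : ℝ) (u : V m → ℂ), -1 ≤ lam ∧ lam ≤ -1 + δ ∧
      (∀ x, ‖u x‖ ≤ 1) ∧ (∃ x ∈ Q (0 : V m) s, ‖u x‖ = 1) ∧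
      (∀ (j : ℕ) (x : V m), x ∉ Q (0 : V m) (s + j) → ‖u x‖ ≤ qq m ^ (j + 1)) ∧
      ∀ x ∈ Q (0 : V m) n, hop (well m s) u x = (lam : ℂ) * u x := by
  obtain ⟨lam, v, h1, h2, ⟨x1, hx1⟩, h4⟩ := low_ev hs hδ hn
  have hlam0 : lam ≤ 0 := by linarith
  obtain ⟨x0, hx0, hmax⟩ := Finset.exists_max_image (Q (0 : V m) n) (fun x => ‖v x‖)
    ⟨0, self_mem_Q _ _⟩
  have hmax' : ∀ x, ‖v x‖ ≤ ‖v x0‖ := by
    intro x
    by_cases hx : x ∈ Q (0 : V m) n
    · exact hmax x hx
    · rw [h2 x hx, norm_zero]; exact norm_nonneg _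
  have hM0 : 0 < ‖v x0‖ := lt_of_lt_of_le (norm_pos_iff.2 hx1) (hmax' x1)
  set c : ℂ := ((‖v x0‖⁻¹ : ℝ) : ℂ) with hc
  set u : V m → ℂ := fun x => c * v x with hu
  have hun : ∀ x, ‖u x‖ = ‖v x0‖⁻¹ * ‖v x‖ := by
    intro x
    simp only [hu, hc, norm_mul, Complex.norm_real, norm_inv, norm_norm]
  have hu1 : ∀ x, ‖u x‖ ≤ 1 := by
    intro x
    rw [hun, inv_mul_le_iff₀ hM0, mul_one]
    exact hmax' x
  have hux0 : ‖u x0‖ = 1 := by rw [hun, inv_mul_cancel₀ hM0.ne']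
  have hop_u : ∀ x, hop (well m s) u x = c * hop (well m s) v x := by
    intro x
    unfold hop
    simp only [hu]
    have : ∑ i : Fin m, (c * v (x + ee i) - c * v x + (c * v (x - ee i) - c * v x)) =
        c * ∑ i : Fin m, ((v (x + ee i) - v x) + (v (x - ee i) - v x)) := by
      rw [Finset.mul_sum]
      exact Finset.sum_congr rfl fun i _ => by ring
    rw [this]; ring
  have hueq : ∀ x ∈ Q (0 : V m) n, hop (well m s) u x = (lam : ℂ) * u x := by
    intro x hx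
    rw [hop_u, h4 x hx]
    simp only [hu]; ring
  have hor : ∀ x, hop (well m s) u x = (lam : ℂ) * u x ∨ u x = 0 := by
    intro x
    by_cases hx : x ∈ Q (0 : V m) n
    · exact Or.inl (hueq x hx)
    · exact Or.inr (by simp only [hu]; rw [h2 x hx, mul_zero])
  have hdec := decay hlam0 hu1 hor
  have hx0s : x0 ∈ Q (0 : V m) s := by
    by_contra hcon
    have := hdec 0 x0 hcon
    rw [hux0, zero_add, pow_one] at this
    linarith [qq_lt_one (m := m)]
  refine ⟨lam, u, ?_, h1, hu1, ⟨x0, hx0s, hux0⟩, hdec, hueq⟩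
  have h5 := hop_rearr (well m s) u x0
  rw [well_in hx0s, hueq x0 hx0] at h5
  have h6 : (((2 * m - 1 - lam : ℝ)) : ℂ) * u x0 = ∑ i : Fin m, (u (x0 + ee i) + u (x0 - ee i)) := by
    rw [← h5, if_neg (by simp)]; push_cast; ring
  have h7 := norm_nbr (v := u) (B := 1) (x := x0) fun i => ⟨hu1 _, hu1 _⟩
  rw [← h6, norm_mul, hux0, Complex.norm_real, Real.norm_eq_abs] at h7
  have := le_abs_self (2 * (m : ℝ) - 1 - lam)
  linarith

/-- the bound state -/
theorem exists_state {s : ℕ} (hs : 1 ≤ s) {δ : ℝ} (hδ : 4 * (m : ℝ) ^ 2 ≤ δ * (2 * s + 1))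
    (hδ1 : δ ≤ 1) : ∃ (lam : ℝ) (u : V m → ℂ), -1 ≤ lam ∧ lam ≤ -1 + δ ∧
      (∀ x, ‖u x‖ ≤ 1) ∧ (∃ x, u x ≠ 0) ∧
      (∀ (j : ℕ) (x : V m), x ∉ Q (0 : V m) (s + j) → ‖u x‖ ≤ qq m ^ (j + 1)) ∧
      ∀ x, hop (well m s) u x = (lam : ℂ) * u x := by
  have hbs := fun k : ℕ => box_state hs hδ hδ1 (n := s + k) (by omega)
  choose E u hE1 hE2 hb hone hdec heq using hbs
  set S : Set (ℝ × (V m → ℂ)) := Set.Icc (-1) (-1 + δ) ×ˢ
    Set.pi Set.univ (fun _ => Metric.closedBall 0 1) with hS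
  have hSc : IsCompact S := isCompact_Icc.prod
    (isCompact_univ_pi fun _ => isCompact_closedBall _ _)
  set g : ℕ → ℝ × (V m → ℂ) := fun n => (E n, fun y => u n y) with hg
  have hgS : ∀ n, g n ∈ S := by
    intro n
    refine ⟨⟨hE1 n, hE2 n⟩, fun y _ => ?_⟩
    simpa [hg] using hb n y
  obtain ⟨p, hpS, hp⟩ := hSc.ultrafilter_le_nhds ((hyperfilter ℕ).map g) (by
    rw [Ultrafilter.coe_map, le_principal_iff]
    exact Filter.mem_map.2 (Filter.Eventually.of_forall hgS))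
  have ht : Tendsto g (hyperfilter ℕ) (𝓝 p) := hp
  have tE : Tendsto E (hyperfilter ℕ) (𝓝 p.1) := (continuous_fst.tendsto p).comp ht
  have tu : ∀ y, Tendsto (fun n => (u n y : ℂ)) (hyperfilter ℕ) (𝓝 (p.2 y)) := fun y =>
    (((continuous_apply y).comp continuous_snd).tendsto p).comp ht
  have hle : (hyperfilter ℕ : Filter ℕ) ≤ atTop := by
    rw [← Nat.cofinite_eq_atTop]
    exact hyperfilter_le_cofinite
  refine ⟨p.1, p.2, hpS.1.1, hpS.1.2, fun x => ?_, ?_, fun j x hx => ?_, fun y => ?_⟩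
  · simpa using hpS.2 x (Set.mem_univ _)
  · by_contra hcon
    push Not at hcon
    have t1 : Tendsto (fun n => ∑ y ∈ Q (0 : V m) s, ‖(u n y : ℂ)‖ ^ 2) (hyperfilter ℕ)
        (𝓝 (∑ y ∈ Q (0 : V m) s, ‖p.2 y‖ ^ 2)) := tendsto_finsetSum _ fun y _ => (tu y).norm.pow 2
    have h1 : (1 : ℝ) ≤ ∑ y ∈ Q (0 : V m) s, ‖p.2 y‖ ^ 2 := by
      refine ge_of_tendsto t1 (Eventually.of_forall fun n => ?_)
      obtain ⟨x, hx, hx1⟩ := hone n
      calc (1 : ℝ) = ‖u n x‖ ^ 2 := by rw [hx1]; norm_num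
        _ ≤ _ := Finset.single_le_sum (f := fun y => ‖(u n y : ℂ)‖ ^ 2) (fun _ _ => by positivity) hx
    rw [Finset.sum_eq_zero fun y _ => by rw [hcon y]; simp] at h1
    linarith
  · exact le_of_tendsto (tu x).norm (Eventually.of_forall fun n => hdec n j x hx)
  · obtain ⟨R, hR⟩ : ∃ R : ℕ, y ∈ Q (0 : V m) R := by
      refine ⟨∑ i, (y i).natAbs, mem_Q.2 fun j => ?_⟩
      have h1 : (y j).natAbs ≤ ∑ i, (y i).natAbs :=
        Finset.single_le_sum (f := fun i => (y i).natAbs) (fun _ _ => Nat.zero_le _)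
          (Finset.mem_univ j)
      simp only [Pi.zero_apply, sub_zero]
      rw [Int.abs_eq_natAbs]
      exact_mod_cast h1
    have t1 : Tendsto (fun n => hop (well m s) (u n) y) (hyperfilter ℕ)
        (𝓝 (hop (well m s) p.2 y)) := by
      unfold hop
      refine Tendsto.add (Tendsto.neg (tendsto_finsetSum _ fun i _ => ?_))
        (Tendsto.mul tendsto_const_nhds (tu y))
      exact ((tu (y + ee i)).sub (tu y)).add ((tu (y - ee i)).sub (tu y))
    have t2 : Tendsto (fun n => (E n : ℂ) * u n y) (hyperfilter ℕ) (𝓝 ((p.1 : ℂ) * p.2 y)) :=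
      ((Complex.continuous_ofReal.tendsto _).comp tE).mul (tu y)
    refine tendsto_nhds_unique (t1.congr' ?_) t2
    have hev : ∀ᶠ n : ℕ in (hyperfilter ℕ : Filter ℕ), R ≤ n := hle (eventually_ge_atTop R)
    filter_upwards [hev] with n hn
    exact heq n y (Q_mono (by omega) hR)

/-- a bound state with product decay -/
theorem exists_state' {δ : ℝ} (hδ0 : 0 < δ) (hδ1 : δ ≤ 1) :
    ∃ (s : ℕ) (lam r A : ℝ) (u : V m → ℂ), 0 < r ∧ r < 1 ∧ 0 < A ∧ -1 ≤ lam ∧ lam ≤ -1 + δ ∧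
      (∃ x, u x ≠ 0) ∧ (∀ x, ‖u x‖ ≤ A * ∏ i, r ^ (x i).natAbs) ∧
      ∀ x, hop (well m s) u x = (lam : ℂ) * u x := by
  obtain ⟨s, hs⟩ := exists_nat_gt (4 * (m : ℝ) ^ 2 / δ + 1)
  have hs1 : 1 ≤ s := by
    have h0 : 0 ≤ 4 * (m : ℝ) ^ 2 / δ := by positivity
    have : (1 : ℝ) < s := by linarith
    exact_mod_cast this.le
  have hδs : 4 * (m : ℝ) ^ 2 ≤ δ * (2 * s + 1) := by
    have h1 : 4 * (m : ℝ) ^ 2 / δ < s := by linarith
    rw [div_lt_iff₀ hδ0] at h1
    have h2 : (0 : ℝ) ≤ s := Nat.cast_nonneg s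
    nlinarith [mul_nonneg hδ0.le h2]
  obtain ⟨lam, u, h1, h2, h3, h4, h5, h6⟩ := exists_state (m := m) hs1 hδs hδ1
  set r : ℝ := 1 - (1 - qq m) / (m + 2) with hr
  have hq1 := qq_lt_one (m := m)
  have hq0 := qq_nonneg (m := m)
  have hm0 : (0 : ℝ) ≤ m := Nat.cast_nonneg m
  have hdiv : (1 - qq m) / (m + 2) ≤ 1 - qq m := by
    rw [div_le_iff₀ (by positivity)]
    nlinarith
  have hdiv0 : 0 < (1 - qq m) / ((m : ℝ) + 2) := div_pos (by linarith) (by positivity)
  have hr1 : r < 1 := by rw [hr]; linarith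
  have hr0 : 0 < r := by
    rw [hr, sub_pos, div_lt_one (by positivity)]
    linarith
  have hrm : qq m ≤ r ^ (m + 1) := by
    have h7 : 1 + ((m + 1 : ℕ) : ℝ) * (-((1 - qq m) / (m + 2))) ≤
        (1 + -((1 - qq m) / (m + 2))) ^ (m + 1) := by
      apply one_add_mul_le_pow
      linarith
    have h8 : qq m ≤ 1 + ((m + 1 : ℕ) : ℝ) * (-((1 - qq m) / (m + 2))) := by
      push_cast
      have h9 : ((m : ℝ) + 1) * ((1 - qq m) / (m + 2)) ≤ 1 - qq m := by
        rw [mul_div_assoc', div_le_iff₀ (by positivity)]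
        nlinarith
      linarith
    rw [hr, sub_eq_add_neg]
    exact h8.trans h7
  refine ⟨s, lam, r, (r⁻¹) ^ (m * s), u, hr0, hr1, by positivity, h1, h2, h4, fun x => ?_, h6⟩
  have hprod : ∏ i, r ^ (x i).natAbs = r ^ (∑ i, (x i).natAbs) := by
    rw [Finset.prod_pow_eq_pow_sum]
  rw [hprod]
  -- sup norm
  by_cases hx : x ∈ Q (0 : V m) s
  · have h9 : ∑ i, (x i).natAbs ≤ m * s := by
      calc ∑ i, (x i).natAbs ≤ ∑ _i : Fin m, s := Finset.sum_le_sum fun i _ => by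
            have := mem_Q.1 hx i
            simp only [Pi.zero_apply, sub_zero] at this
            rw [Int.abs_eq_natAbs] at this
            exact_mod_cast this
        _ = m * s := by simp
    calc ‖u x‖ ≤ 1 := h3 x
      _ = (r⁻¹) ^ (m * s) * r ^ (m * s) := by rw [← mul_pow, inv_mul_cancel₀ hr0.ne', one_pow]
      _ ≤ (r⁻¹) ^ (m * s) * r ^ (∑ i, (x i).natAbs) := by
          apply mul_le_mul_of_nonneg_left _ (by positivity)
          exact pow_le_pow_of_le_one hr0.le hr1.le h9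
  · -- the largest j with x outside
    set R : ℕ := Finset.univ.sup (fun i => (x i).natAbs) with hR
    have hRs : s < R := by
      rw [mem_Q] at hx
      push Not at hx
      obtain ⟨i, hi⟩ := hx
      simp only [Pi.zero_apply, sub_zero] at hi
      rw [Int.abs_eq_natAbs] at hi
      have h10 : s < (x i).natAbs := by exact_mod_cast hi
      exact lt_of_lt_of_le h10 (Finset.le_sup (f := fun i => (x i).natAbs) (Finset.mem_univ i))
    have hxR : x ∉ Q (0 : V m) (s + (R - s - 1)) := by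
      intro hcon
      rw [mem_Q] at hcon
      have : R ≤ s + (R - s - 1) := by
        apply Finset.sup_le
        intro i _
        have := hcon i
        simp only [Pi.zero_apply, sub_zero] at this
        rw [Int.abs_eq_natAbs] at this
        exact_mod_cast this
      omega
    have h11 := h5 _ x hxR
    have h12 : R - s - 1 + 1 = R - s := by omega
    rw [h12] at h11
    have h13 : ∑ i, (x i).natAbs ≤ (m + 1) * (R - s) + m * s := by
      have : ∑ i, (x i).natAbs ≤ m * R := by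
        calc ∑ i, (x i).natAbs ≤ ∑ _i : Fin m, R := Finset.sum_le_sum fun i _ =>
              Finset.le_sup (f := fun i => (x i).natAbs) (Finset.mem_univ i)
          _ = m * R := by simp
      clear_value R
      obtain ⟨t, rfl⟩ : ∃ t, R = s + t := ⟨R - s, by omega⟩
      have h14 : s + t - s = t := by omega
      rw [h14]
      nlinarith
    calc ‖u x‖ ≤ qq m ^ (R - s) := h11
      _ ≤ (r ^ (m + 1)) ^ (R - s) := pow_le_pow_left₀ hq0 hrm _
      _ = (r⁻¹) ^ (m * s) * r ^ ((m + 1) * (R - s) + m * s) := by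
          have h15 : (r⁻¹) ^ (m * s) * r ^ (m * s) = 1 := by
            rw [← mul_pow, inv_mul_cancel₀ hr0.ne', one_pow]
          rw [pow_add r ((m + 1) * (R - s)), pow_mul r (m + 1) (R - s)]
          linear_combination (-(r ^ (m + 1)) ^ (R - s)) * h15
      _ ≤ (r⁻¹) ^ (m * s) * r ^ (∑ i, (x i).natAbs) := by
          apply mul_le_mul_of_nonneg_left _ (by positivity)
          exact pow_le_pow_of_le_one hr0.le hr1.le h13

end Pool.Agent.T9h50.AC
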