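import Mathlib

set_option autoImplicit false

/-! Auxiliary facts: the root of the transfer equation, sums over the lattice. -/

namespace Pool.Agent.T9h50.AC

open Complex
open scoped ENNReal

/-- the root of `ζ + 1/ζ = w` in the unit disc -/
lemma exists_zeta {w : ℂ} (hw : w.im < 0) : ∃ ζ : ℂ, ζ ≠ 0 ∧ ‖ζ‖ < 1 ∧ ζ ^ 2 - w * ζ + 1 = 0 ∧
    ∀ c0 : ℝ, 0 ≤ c0 → (w.re / 2) ^ 2 + c0 ^ 2 ≤ 1 → c0 * (1 - ‖ζ‖ ^ 2) ≤ -w.im := by
  obtain ⟨s, hs⟩ := IsAlgClosed.exists_pow_nat_eq (w ^ 2 - 4) (n := 2) (by norm_num)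
  have key : ∃ ζ : ℂ, ζ ≠ 0 ∧ ‖ζ‖ < 1 ∧ ζ ^ 2 - w * ζ + 1 = 0 := by
    set a : ℂ := (w + s) / 2 with ha
    set b : ℂ := (w - s) / 2 with hb
    have hab : a * b = 1 := by rw [ha, hb]; linear_combination (-1 / 4) * hs
    have ha2 : a ^ 2 - w * a + 1 = 0 := by rw [ha]; linear_combination (1 / 4) * hs
    have hb2 : b ^ 2 - w * b + 1 = 0 := by rw [hb]; linear_combination (1 / 4) * hs
    have ha0 : a ≠ 0 := left_ne_zero_of_mul_eq_one hab
    have hb0 : b ≠ 0 := right_ne_zero_of_mul_eq_one hab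
    have hn : ‖a‖ * ‖b‖ = 1 := by rw [← norm_mul, hab, norm_one]
    rcases lt_trichotomy ‖a‖ 1 with h | h | h
    · exact ⟨a, ha0, h, ha2⟩
    · exfalso
      have hc : (starRingEnd ℂ) a = b := by
        have h1 : a * (starRingEnd ℂ) a = 1 := by
          rw [Complex.mul_conj, Complex.normSq_eq_norm_sq, h]; norm_num
        exact mul_left_cancel₀ ha0 (h1.trans hab.symm)
      have hwab : w = a + (starRingEnd ℂ) a := by rw [hc, ha, hb]; ring
      have : w.im = 0 := by rw [hwab]; simp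
      linarith
    · refine ⟨b, hb0, ?_, hb2⟩
      have h0 : 0 < ‖b‖ := norm_pos_iff.2 hb0
      nlinarith
  obtain ⟨ζ, h0, h1, h2⟩ := key
  refine ⟨ζ, h0, h1, h2, fun c0 hc0 hc => ?_⟩
  set x := ζ.re with hx
  set y := ζ.im with hy
  set n : ℝ := ‖ζ‖ ^ 2 with hn
  have hnxy : n = x ^ 2 + y ^ 2 := by
    rw [hn, ← Complex.normSq_eq_norm_sq, Complex.normSq_apply]; ring
  have hn0 : 0 < n := by rw [hn]; have := norm_pos_iff.2 h0; positivity
  have hn1 : n < 1 := by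
    rw [hn]; have := norm_nonneg ζ; nlinarith
  have h3 : w * n = ζ * n + (starRingEnd ℂ) ζ := by
    have e1 : ζ * (starRingEnd ℂ) ζ = n := by
      rw [Complex.mul_conj, Complex.normSq_eq_norm_sq]
    rw [← e1]
    linear_combination (-(starRingEnd ℂ) ζ) * h2
  have hre : w.re * n = x * n + x := by
    have := congrArg Complex.re h3
    simpa using this
  have him : w.im * n = y * n - y := by
    have := congrArg Complex.im h3
    simp at this
    linarith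
  have hypos : 0 < y := by
    have : w.im * n < 0 := mul_neg_of_neg_of_pos hw hn0
    rw [him] at this
    nlinarith
  have h4 : c0 * n ≤ y := by
    have h5 : 4 * n * x ^ 2 ≤ (w.re) ^ 2 * n ^ 2 := by
      have : (w.re) ^ 2 * n ^ 2 = x ^ 2 * (n + 1) ^ 2 := by
        rw [← mul_pow, hre]; ring
      rw [this]
      nlinarith [sq_nonneg (n - 1), sq_nonneg x, mul_nonneg (sq_nonneg x) (sq_nonneg (n - 1))]
    have h6 : c0 ^ 2 * n ^ 2 ≤ n ^ 2 - n * x ^ 2 := by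
      have h7 : c0 ^ 2 ≤ 1 - (w.re) ^ 2 / 4 := by nlinarith
      have h8 : c0 ^ 2 * n ^ 2 ≤ (1 - (w.re) ^ 2 / 4) * n ^ 2 :=
        mul_le_mul_of_nonneg_right h7 (by positivity)
      nlinarith
    have h9 : (c0 * n) ^ 2 ≤ y ^ 2 := by
      have : n ^ 2 - n * x ^ 2 = n * y ^ 2 := by rw [hnxy]; ring
      rw [mul_pow]
      rw [this] at h6
      nlinarith [sq_nonneg y]
    exact abs_le_of_sq_le_sq' h9 hypos.le |>.2
  have h10 : c0 * (1 - n) * n ≤ -w.im * n := by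
    have : -w.im * n = y * (1 - n) := by linarith
    rw [this]
    nlinarith
  exact le_of_mul_le_mul_right h10 hn0

lemma tsum_prodn (g : ℤ → ℝ≥0∞) (n : ℕ) :
    ∑' a : Fin n → ℤ, ∏ c, g (a c) = (∑' m, g m) ^ n := by
  induction n with
  | zero =>
    rw [tsum_eq_single (default : Fin 0 → ℤ) fun b hb => absurd (Subsingleton.elim _ _) hb]
    simp
  | succ n ih =>
    rw [← (Fin.consEquiv (fun _ : Fin (n + 1) => ℤ)).tsum_eq
      (fun P : Fin (n + 1) → ℤ => ∏ i, g (P i)), ENNReal.tsum_prod']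
    have h2 : ∀ (a : ℤ) (P : Fin n → ℤ),
        ∏ i, g ((Fin.consEquiv (fun _ : Fin (n + 1) => ℤ)) (a, P) i) = g a * ∏ i, g (P i) := by
      intro a P
      rw [Fin.prod_univ_succ]
      rfl
    simp only [h2, ENNReal.tsum_mul_left, ih]
    rw [ENNReal.tsum_mul_right, pow_succ, mul_comm]

lemma tsum_prod0 (g0 g : ℤ → ℝ≥0∞) {n : ℕ} (i0 : Fin (n + 1)) :
    ∑' a : Fin (n + 1) → ℤ, g0 (a i0) * ∏ i : Fin n, g (a (i0.succAbove i)) =
      (∑' t, g0 t) * (∑' m, g m) ^ n := by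
  rw [← (Fin.insertNthEquiv (fun _ : Fin (n + 1) => ℤ) i0).tsum_eq
    (fun P : Fin (n + 1) → ℤ => g0 (P i0) * ∏ i : Fin n, g (P (i0.succAbove i))), ENNReal.tsum_prod']
  have h2 : ∀ (a : ℤ) (P : Fin n → ℤ),
      g0 ((Fin.insertNthEquiv (fun _ : Fin (n + 1) => ℤ) i0) (a, P) i0) *
        ∏ i : Fin n, g ((Fin.insertNthEquiv (fun _ : Fin (n + 1) => ℤ) i0) (a, P) (i0.succAbove i)) =
      g0 a * ∏ i, g (P i) := fun a P => by
    simp [Fin.insertNthEquiv]
  simp only [h2, ENNReal.tsum_mul_left, tsum_prodn]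
  rw [ENNReal.tsum_mul_right]

lemma geo_ne_top {r : ℝ} (h0 : 0 ≤ r) (h1 : r < 1) :
    ∑' t : ℤ, ENNReal.ofReal (r ^ t.natAbs) ≠ ∞ := by
  apply Summable.tsum_ofReal_ne_top
  apply Summable.of_nat_of_neg
  · simpa using summable_geometric_of_lt_one h0 h1
  · simpa using summable_geometric_of_lt_one h0 h1

lemma sq_ne_top : ∑' t : ℤ, ENNReal.ofReal (((2 + |(t : ℝ)|) ^ 2)⁻¹) ≠ ∞ := by
  apply Summable.tsum_ofReal_ne_top
  have h : Summable fun n : ℕ => ((2 + (n : ℝ)) ^ 2)⁻¹ := by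
    have h1 : Summable fun n : ℕ => (((n : ℝ)) ^ 2)⁻¹ := Real.summable_nat_pow_inv.2 (by norm_num)
    have h2 := (summable_nat_add_iff 2).2 h1
    refine h2.congr fun n => ?_
    push_cast
    ring_nf
  apply Summable.of_nat_of_neg
  · simpa using h
  · simpa using h

end Pool.Agent.T9h50.AC
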