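import Pool.Agent.T9h50.AC.Crit
import Pool.Agent.T9h50.AC.State
import Pool.Agent.T9h50.AC.Zet
import Pool.Agent.T9h50.GC.Per

set_option autoImplicit false

/-! A half-infinite straight channel with a cladding of logarithmic thickness carries absolutely
continuous spectrum, whatever the potential outside. -/

namespace Pool.Agent.T9h50.AC

open Complex MeasureTheory Filter Pool.Agent.H12R2.And
open Pool.Agent.T9h50.GC (W dl inner_dl)
open Pool.Agent.TH980.IM (spm)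
open scoped Topology ENNReal InnerProductSpace

variable {m : ℕ}

/-- `χ` is a bound state of the transverse configuration `q` with energy `lam` -/
structure Bd (q : V m → Bool) (lam r A : ℝ) (χ : V m → ℂ) : Prop where
  r0 : 0 < r
  r1 : r < 1
  A0 : 0 < A
  ne : ∃ y, χ y ≠ 0
  dec : ∀ y, ‖χ y‖ ≤ A * ∏ i, r ^ (y i).natAbs
  eq : ∀ y, hop q χ y = (lam : ℂ) * χ y

/-- the longitudinal factor -/
noncomputable def fh (ζ : ℂ) (τ : ℤ) : ℂ := if 0 ≤ τ then ζ ^ τ.toNat else 0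

lemma norm_fh_le {ζ : ℂ} (h : ‖ζ‖ ≤ 1) (τ : ℤ) : ‖fh ζ τ‖ ≤ 1 := by
  unfold fh
  split_ifs
  · rw [norm_pow]; exact pow_le_one₀ (norm_nonneg _) h
  · simp

lemma fh_rec {ζ w : ℂ} (h : ζ ^ 2 - w * ζ + 1 = 0) (τ : ℤ) :
    w * fh ζ τ - fh ζ (τ + 1) - fh ζ (τ - 1) =
      if τ = 0 then w - ζ else if τ = -1 then -1 else 0 := by
  rcases lt_trichotomy τ (-1) with h1 | h1 | h1
  · have e1 : fh ζ τ = 0 := by unfold fh; rw [if_neg (by omega)]
    have e2 : fh ζ (τ + 1) = 0 := by unfold fh; rw [if_neg (by omega)]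
    have e3 : fh ζ (τ - 1) = 0 := by unfold fh; rw [if_neg (by omega)]
    rw [e1, e2, e3, if_neg (by omega), if_neg (by omega)]; ring
  · subst h1
    have e1 : fh ζ (-1) = 0 := by unfold fh; rw [if_neg (by omega)]
    have e2 : fh ζ (-1 + 1) = 1 := by unfold fh; simp
    have e3 : fh ζ (-1 - 1) = 0 := by unfold fh; rw [if_neg (by omega)]
    rw [e1, e2, e3, if_neg (by omega), if_pos rfl]; ring
  · obtain ⟨n, rfl⟩ : ∃ n : ℕ, τ = n := ⟨τ.toNat, by omega⟩
    have e : ∀ k : ℕ, fh ζ (k : ℤ) = ζ ^ k := by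
      intro k; unfold fh; rw [if_pos (by omega), Int.toNat_natCast]
    rcases Nat.eq_zero_or_pos n with h2 | h2
    · subst h2
      have e1 : fh ζ ((0 : ℕ) : ℤ) = 1 := by rw [e]; simp
      have e2 : fh ζ (((0 : ℕ) : ℤ) + 1) = ζ := by
        have := e 1
        simpa using this
      have e3 : fh ζ (((0 : ℕ) : ℤ) - 1) = 0 := by unfold fh; rw [if_neg (by omega)]
      rw [e1, e2, e3, if_pos (by simp)]; ring
    · obtain ⟨k, rfl⟩ : ∃ k, n = k + 1 := ⟨n - 1, by omega⟩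
      have e1 := e (k + 1)
      have e2 : fh ζ (((k + 1 : ℕ) : ℤ) + 1) = ζ ^ (k + 2) := by
        have := e (k + 2)
        rw [← this]; congr 1
      have e3 : fh ζ (((k + 1 : ℕ) : ℤ) - 1) = ζ ^ k := by
        rw [← e k]; congr 1; push_cast; ring
      rw [e1, e2, e3, if_neg (by omega), if_neg (by omega)]
      linear_combination (-ζ ^ k) * h

lemma sum_fh_ne_top {ζ : ℂ} (hζ : ‖ζ‖ < 1) {σ : ℤ} (hσ : σ = 1 ∨ σ = -1) (R : ℕ) :
    ∑' t : ℤ, ENNReal.ofReal ‖fh ζ (σ * t - R)‖ ≠ ∞ := by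
  have h1 : ∑' t : ℤ, ENNReal.ofReal ‖fh ζ (σ * t - R)‖ ≤ ∑' τ : ℤ, ENNReal.ofReal (‖ζ‖ ^ τ.natAbs) := by
    refine le_trans (ENNReal.tsum_comp_le_tsum_of_injective (f := fun t : ℤ => σ * t - R) ?_
      (fun τ => ENNReal.ofReal ‖fh ζ τ‖)) ?_
    · intro a b hab
      simp only at hab
      rcases hσ with h | h <;> rw [h] at hab <;> omega
    · refine ENNReal.tsum_le_tsum fun τ => ENNReal.ofReal_le_ofReal ?_
      unfold fh
      split_ifs with h
      · rw [norm_pow]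
        apply le_of_eq
        congr 1
        omega
      · rw [norm_zero]; positivity
  exact ne_top_of_le_ne_top (geo_ne_top (norm_nonneg _) hζ) h1

variable {i0 : Fin (m + 1)}

/-- the coordinates other than `i0` -/
def tl (i0 : Fin (m + 1)) (x : V (m + 1)) : V m := fun i => x (i0.succAbove i)

/-- the approximate generalised eigenfunction -/
noncomputable def FF (i0 : Fin (m + 1)) (R : ℕ) (ζ : ℂ) (σ : ℤ) (χ : V m → ℂ) (x : V (m + 1)) : ℂ :=
  fh ζ (σ * x i0 - R) * χ (tl i0 x)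

lemma tl_add_zero (x : V (m + 1)) : tl i0 (x + ee i0) = tl i0 x := by
  funext i
  simp only [tl, ee, Pi.add_apply, Pi.single_eq_of_ne (Fin.succAbove_ne i0 i), add_zero]

lemma tl_sub_zero (x : V (m + 1)) : tl i0 (x - ee i0) = tl i0 x := by
  funext i
  simp only [tl, ee, Pi.sub_apply, Pi.single_eq_of_ne (Fin.succAbove_ne i0 i), sub_zero]

lemma single_tl (j : Fin m) : tl i0 (ee (i0.succAbove j) : V (m + 1)) = ee j := by
  funext i
  unfold tl ee
  by_cases h : i = j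
  · subst h; simp
  · rw [Pi.single_eq_of_ne (fun hh => h (Fin.succAbove_right_injective hh)), Pi.single_eq_of_ne h]

lemma tl_add_succ (x : V (m + 1)) (j : Fin m) : tl i0 (x + ee (i0.succAbove j)) = tl i0 x + ee j := by
  rw [← single_tl (i0 := i0) j]; rfl

lemma tl_sub_succ (x : V (m + 1)) (j : Fin m) : tl i0 (x - ee (i0.succAbove j)) = tl i0 x - ee j := by
  rw [← single_tl (i0 := i0) j]; rfl

lemma zero_add_succ (x : V (m + 1)) (j : Fin m) : (x + ee (i0.succAbove j)) i0 = x i0 := by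
  simp only [ee, Pi.add_apply, Pi.single_eq_of_ne (Ne.symm (Fin.succAbove_ne i0 j)), add_zero]

lemma zero_sub_succ (x : V (m + 1)) (j : Fin m) : (x - ee (i0.succAbove j)) i0 = x i0 := by
  simp only [ee, Pi.sub_apply, Pi.single_eq_of_ne (Ne.symm (Fin.succAbove_ne i0 j)), sub_zero]

lemma hop_FF {q : V m → Bool} {lam r A : ℝ} {χ : V m → ℂ} (hb : Bd q lam r A χ) (R : ℕ)
    {σ : ℤ} (hσ : σ = 1 ∨ σ = -1) {ζ z w : ℂ} (hw : w = 2 + lam - z)
    (hζ : ζ ^ 2 - w * ζ + 1 = 0) (ω : V (m + 1) → Bool) (x : V (m + 1)) :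
    hop ω (FF i0 R ζ σ χ) x - z * FF i0 R ζ σ χ x =
      (if σ * x i0 - R = 0 then w - ζ else if σ * x i0 - R = -1 then -1 else 0) * χ (tl i0 x) +
      fh ζ (σ * x i0 - R) * ((if ω x then (1 : ℂ) else -1) - (if q (tl i0 x) then (1 : ℂ) else -1)) *
        χ (tl i0 x) := by
  rw [← fh_rec hζ]
  have h1 := hb.eq (tl i0 x)
  unfold hop at h1 ⊢
  rw [Fin.sum_univ_succAbove _ i0]
  have e0 : FF i0 R ζ σ χ (x + ee i0) = fh ζ (σ * x i0 - R + σ) * χ (tl i0 x) := by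
    unfold FF
    rw [tl_add_zero]
    congr 2
    simp only [Pi.add_apply, ee, Pi.single_eq_same]; ring
  have e1 : FF i0 R ζ σ χ (x - ee i0) = fh ζ (σ * x i0 - R - σ) * χ (tl i0 x) := by
    unfold FF
    rw [tl_sub_zero]
    congr 2
    simp only [Pi.sub_apply, ee, Pi.single_eq_same]; ring
  have e2 : ∀ j : Fin m, FF i0 R ζ σ χ (x + ee (i0.succAbove j)) =
      fh ζ (σ * x i0 - R) * χ (tl i0 x + ee j) := by
    intro j; unfold FF; rw [tl_add_succ, zero_add_succ]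
  have e3 : ∀ j : Fin m, FF i0 R ζ σ χ (x - ee (i0.succAbove j)) =
      fh ζ (σ * x i0 - R) * χ (tl i0 x - ee j) := by
    intro j; unfold FF; rw [tl_sub_succ, zero_sub_succ]
  have e4 : FF i0 R ζ σ χ x = fh ζ (σ * x i0 - R) * χ (tl i0 x) := rfl
  have e5 : ∑ j : Fin m, (FF i0 R ζ σ χ (x + ee (i0.succAbove j)) - FF i0 R ζ σ χ x +
      (FF i0 R ζ σ χ (x - ee (i0.succAbove j)) - FF i0 R ζ σ χ x)) = fh ζ (σ * x i0 - R) *
      ∑ j : Fin m, ((χ (tl i0 x + ee j) - χ (tl i0 x)) + (χ (tl i0 x - ee j) - χ (tl i0 x))) := by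
    rw [Finset.mul_sum]
    refine Finset.sum_congr rfl fun j _ => ?_
    rw [e2, e3, e4]; ring
  have e6 : fh ζ (σ * x i0 - R + σ) + fh ζ (σ * x i0 - R - σ) =
      fh ζ (σ * x i0 - R + 1) + fh ζ (σ * x i0 - R - 1) := by
    rcases hσ with h | h
    · rw [h]
    · rw [h]
      rw [show (-1 : ℤ) * x i0 - R + -1 = -1 * x i0 - R - 1 by ring,
        show (-1 : ℤ) * x i0 - R - -1 = -1 * x i0 - R + 1 by ring]
      ring
  rw [e5, e0, e1, e4, hw]
  linear_combination (fh ζ (σ * x i0 - R)) * h1 - χ (tl i0 x) * e6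

/-- the majorant -/
noncomputable def GG (i0 : Fin (m + 1)) (r : ℝ) (x : V (m + 1)) : ℝ :=
  ((2 + |(x i0 : ℝ)|) ^ 2)⁻¹ * ∏ i : Fin m, (Real.sqrt r) ^ (x (i0.succAbove i)).natAbs

/-- the constant in the thickness of the cladding -/
noncomputable def cc (r : ℝ) : ℝ := -2 / Real.log (Real.sqrt r)

lemma GG_nonneg {r : ℝ} (x : V (m + 1)) : 0 ≤ GG i0 r x := by unfold GG; positivity

lemma GG_sum {r : ℝ} (h0 : 0 < r) (h1 : r < 1) :
    ∑' x : V (m + 1), ENNReal.ofReal (GG i0 r x) ≠ ∞ := by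
  have hs0 : 0 < Real.sqrt r := Real.sqrt_pos.2 h0
  have hs1 : Real.sqrt r < 1 := by
    rw [Real.sqrt_lt' one_pos]; simpa using h1
  have e : ∀ x : V (m + 1), ENNReal.ofReal (GG i0 r x) =
      (fun t : ℤ => ENNReal.ofReal (((2 + |(t : ℝ)|) ^ 2)⁻¹)) (x i0) *
        ∏ i : Fin m, (fun t : ℤ => ENNReal.ofReal ((Real.sqrt r) ^ t.natAbs)) (x (i0.succAbove i)) := by
    intro x
    simp only
    rw [← ENNReal.ofReal_prod_of_nonneg (fun i _ => by positivity),
      ← ENNReal.ofReal_mul (by positivity)]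
    rfl
  rw [tsum_congr e, tsum_prod0 (fun t : ℤ => ENNReal.ofReal (((2 + |(t : ℝ)|) ^ 2)⁻¹))
    (fun t : ℤ => ENNReal.ofReal ((Real.sqrt r) ^ t.natAbs)) i0]
  exact ENNReal.mul_ne_top sq_ne_top (ENNReal.pow_ne_top (geo_ne_top hs0.le hs1))

lemma phi_bound {q : V m → Bool} {lam r A : ℝ} {χ : V m → ℂ} (hb : Bd q lam r A χ) {R : ℕ}
    {σ : ℤ} (hσ : σ = 1 ∨ σ = -1) {ζ z w : ℂ} (hw : w = 2 + lam - z) (hw3 : ‖w‖ ≤ 3)
    (hζ1 : ‖ζ‖ ≤ 1) (hζ : ζ ^ 2 - w * ζ + 1 = 0) {ω : V (m + 1) → Bool}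
    (hch : ∀ x : V (m + 1), (R : ℤ) < σ * x i0 →
      (∀ i : Fin m, |(x (i0.succAbove i) : ℝ)| ≤ cc r * Real.log (2 + |(x i0 : ℝ)|)) →
        ω x = q (tl i0 x))
    (x : V (m + 1)) : ‖hop ω (FF i0 R ζ σ χ) x - z * FF i0 R ζ σ χ x‖ ≤
      6 * (R + 3) ^ 2 * A * GG i0 r x := by
  rw [hop_FF hb R hσ hw hζ]
  have hr0 := hb.r0
  have hr1 := hb.r1
  have hA0 := hb.A0
  have hs0 : 0 < Real.sqrt r := Real.sqrt_pos.2 hr0
  have hs1 : Real.sqrt r < 1 := by
    rw [Real.sqrt_lt' one_pos]; simpa using hr1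
  have hsr : Real.sqrt r * Real.sqrt r = r := Real.mul_self_sqrt hr0.le
  set P : ℝ := ∏ i : Fin m, (Real.sqrt r) ^ (x (i0.succAbove i)).natAbs with hP
  have hP0 : 0 ≤ P := by rw [hP]; positivity
  have hP1 : P ≤ 1 := by
    rw [hP]
    exact Finset.prod_le_one (fun i _ => by positivity) fun i _ => pow_le_one₀ hs0.le hs1.le
  have hχ : ‖χ (tl i0 x)‖ ≤ A * (P * P) := by
    refine (hb.dec _).trans (le_of_eq ?_)
    rw [hP, ← Finset.prod_mul_distrib]
    congr 1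
    refine Finset.prod_congr rfl fun i _ => ?_
    rw [← mul_pow, hsr]; rfl
  set L : ℝ := ((2 + |(x i0 : ℝ)|) ^ 2)⁻¹ with hL
  have hL0 : 0 < L := by rw [hL]; positivity
  have hGG : GG i0 r x = L * P := rfl
  have hVV : ‖((if ω x then (1 : ℂ) else -1) - (if q (tl i0 x) then (1 : ℂ) else -1))‖ ≤ 2 := by
    refine (norm_sub_le _ _).trans ?_
    have : ∀ b : Bool, ‖(if b then (1 : ℂ) else -1)‖ = 1 := by intro b; cases b <;> simp
    rw [this, this]; norm_num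
  have hfh := norm_fh_le hζ1 (σ * x i0 - R)
  have h2nd : ‖fh ζ (σ * x i0 - R) * ((if ω x then (1 : ℂ) else -1) -
      (if q (tl i0 x) then (1 : ℂ) else -1)) * χ (tl i0 x)‖ ≤ 2 * ‖χ (tl i0 x)‖ := by
    rw [norm_mul, norm_mul]
    have h0 : 0 ≤ ‖χ (tl i0 x)‖ := norm_nonneg _
    have : ‖fh ζ (σ * x i0 - R)‖ * ‖((if ω x then (1 : ℂ) else -1) -
        (if q (tl i0 x) then (1 : ℂ) else -1))‖ ≤ 1 * 2 := by gcongr
    nlinarith
  have hR0 : (0 : ℝ) ≤ R := Nat.cast_nonneg R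
  by_cases hc : σ * x i0 - R = 0 ∨ σ * x i0 - R = -1
  · -- near the end of the channel
    have hx1 : |(x i0 : ℝ)| ≤ R + 1 := by
      have : |x i0| ≤ R + 1 := by
        rw [abs_le]
        rcases hσ with h | h <;> rw [h] at hc <;> constructor <;> omega
      exact_mod_cast this
    have hL9 : 1 / ((R : ℝ) + 3) ^ 2 ≤ L := by
      rw [hL, one_div]
      have h0 := abs_nonneg (x i0 : ℝ)
      apply inv_anti₀ (by positivity)
      apply pow_le_pow_left₀ (by positivity)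
      linarith
    have h1st : ‖(if σ * x i0 - R = 0 then w - ζ else if σ * x i0 - R = -1 then -1 else 0)‖ ≤ 4 := by
      split_ifs
      · exact (norm_sub_le _ _).trans (by linarith)
      · simp
      · simp
    calc _ ≤ 4 * ‖χ (tl i0 x)‖ + 2 * ‖χ (tl i0 x)‖ := by
          refine (norm_add_le _ _).trans (add_le_add ?_ h2nd)
          rw [norm_mul]; gcongr
      _ = 6 * ‖χ (tl i0 x)‖ := by ring
      _ ≤ 6 * (A * (P * P)) := by gcongr
      _ ≤ 6 * (A * P) := by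
          have : P * P ≤ P := by nlinarith
          gcongr
      _ ≤ 6 * (A * P) * ((R + 3) ^ 2 * L) := by
          have h3 : 1 ≤ ((R : ℝ) + 3) ^ 2 * L := by
            rw [div_le_iff₀ (by positivity)] at hL9
            linarith
          have h4 : 0 ≤ 6 * (A * P) := by positivity
          nlinarith
      _ = 6 * (R + 3) ^ 2 * A * GG i0 r x := by rw [hGG]; ring
  · push Not at hc
    rw [if_neg hc.1, if_neg hc.2, zero_mul, zero_add]
    have hpos : 0 ≤ 6 * ((R : ℝ) + 3) ^ 2 * A * GG i0 r x := by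
      have := GG_nonneg (i0 := i0) (r := r) x
      positivity
    by_cases hτ : (R : ℤ) < σ * x i0
    swap
    · have : fh ζ (σ * x i0 - R) = 0 := by
        unfold fh
        rw [if_neg]
        have := hc.1
        have := hc.2
        omega
      rw [this]; simpa using hpos
    by_cases hq : ω x = q (tl i0 x)
    · rw [hq]; simpa using hpos
    have hex : ∃ i : Fin m, cc r * Real.log (2 + |(x i0 : ℝ)|) < |(x (i0.succAbove i) : ℝ)| := by
      by_contra hcon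
      push Not at hcon
      exact hq (hch x hτ hcon)
    obtain ⟨i, hi⟩ := hex
    have hlogneg : Real.log (Real.sqrt r) < 0 := Real.log_neg hs0 hs1
    have hPL : P ≤ L := by
      have h1 : P ≤ (Real.sqrt r) ^ (x (i0.succAbove i)).natAbs := by
        rw [hP, ← Finset.mul_prod_erase Finset.univ _ (Finset.mem_univ i)]
        refine mul_le_of_le_one_right (by positivity) ?_
        exact Finset.prod_le_one (fun i _ => by positivity) fun i _ => pow_le_one₀ hs0.le hs1.le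
      have h2 : (Real.sqrt r) ^ (x (i0.succAbove i)).natAbs ≤ L := by
        have hn : (((x (i0.succAbove i)).natAbs : ℕ) : ℝ) = |(x (i0.succAbove i) : ℝ)| := by
          rw [← Int.cast_natCast, Int.natCast_natAbs]; push_cast; rfl
        have h2pos : (0 : ℝ) < 2 + |(x i0 : ℝ)| := by positivity
        rw [← Real.exp_log hs0, ← Real.exp_nat_mul, hn, hL, ← Real.exp_log (pow_pos h2pos 2),
          ← Real.exp_neg, Real.log_pow]
        apply Real.exp_le_exp.2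
        have h3 : cc r * Real.log (Real.sqrt r) = -2 := by
          unfold cc; exact div_mul_cancel₀ _ hlogneg.ne
        have h4 : |(x (i0.succAbove i) : ℝ)| * Real.log (Real.sqrt r) ≤
            cc r * Real.log (2 + |(x i0 : ℝ)|) * Real.log (Real.sqrt r) :=
          mul_le_mul_of_nonpos_right hi.le hlogneg.le
        have h5 : cc r * Real.log (2 + |(x i0 : ℝ)|) * Real.log (Real.sqrt r) =
            -2 * Real.log (2 + |(x i0 : ℝ)|) := by
          rw [mul_right_comm, h3]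
        push_cast
        linarith
      exact h1.trans h2
    calc _ ≤ 2 * ‖χ (tl i0 x)‖ := h2nd
      _ ≤ 2 * (A * (P * P)) := by gcongr
      _ ≤ 2 * (A * (L * P)) := by gcongr
      _ ≤ 6 * (R + 3) ^ 2 * A * (L * P) := by
          have h3 : 0 ≤ A * (L * P) := by positivity
          have h4 : (1 : ℝ) ≤ ((R : ℝ) + 3) ^ 2 := by nlinarith
          nlinarith [mul_le_mul_of_nonneg_right h4 h3]
      _ = 6 * (R + 3) ^ 2 * A * GG i0 r x := by rw [hGG]

/-- the resolvent applied to a vector with a summable majorant -/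
lemma rz_bound (T : W (m + 1) →L[ℂ] W (m + 1)) (φ : W (m + 1)) {b : V (m + 1) → ℝ}
    (hb : ∀ x, ‖φ x‖ ≤ b x) :
    ‖T φ‖ₑ ≤ ∑' x, ENNReal.ofReal (b x) * ‖T (dl x)‖ₑ := by
  classical
  have h1 : HasSum (fun x => lp.single 2 x (φ x)) φ := lp.hasSum_single (by norm_num) φ
  have h2 : HasSum (fun x => T (lp.single 2 x (φ x))) (T φ) := h1.mapL T
  have h3 : ∀ x, ‖T (lp.single 2 x (φ x))‖ₑ ≤ ENNReal.ofReal (b x) * ‖T (dl x)‖ₑ := by
    intro x
    have e1 : (lp.single 2 x (φ x) : W (m + 1)) = (φ x : ℂ) • dl x := by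
      unfold dl
      rw [← lp.single_smul]
      simp
    rw [e1, map_smul, enorm_smul]
    gcongr
    rw [← ofReal_norm]
    exact ENNReal.ofReal_le_ofReal (hb x)
  have h4 : Tendsto (fun s : Finset (V (m + 1)) => ‖∑ x ∈ s, T (lp.single 2 x (φ x))‖ₑ) atTop
      (𝓝 ‖T φ‖ₑ) := (continuous_enorm.tendsto _).comp h2
  refine le_of_tendsto h4 (Eventually.of_forall fun s => ?_)
  calc ‖∑ x ∈ s, T (lp.single 2 x (φ x))‖ₑ ≤ ∑ x ∈ s, ‖T (lp.single 2 x (φ x))‖ₑ :=
        enorm_sum_le _ _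
    _ ≤ ∑ x ∈ s, ENNReal.ofReal (b x) * ‖T (dl x)‖ₑ := Finset.sum_le_sum fun x _ => h3 x
    _ ≤ _ := ENNReal.sum_le_tsum s

lemma FF_le {q : V m → Bool} {lam r A : ℝ} {χ : V m → ℂ} (hb : Bd q lam r A χ) (R : ℕ)
    (σ : ℤ) (ζ : ℂ) (x : V (m + 1)) :
    ‖FF i0 R ζ σ χ x‖ ≤ A * (‖fh ζ (σ * x i0 - R)‖ * ∏ i : Fin m, r ^ (x (i0.succAbove i)).natAbs) := by
  unfold FF
  rw [norm_mul]
  calc ‖fh ζ (σ * x i0 - R)‖ * ‖χ (tl i0 x)‖ ≤ ‖fh ζ (σ * x i0 - R)‖ *
        (A * ∏ i : Fin m, r ^ (tl i0 x i).natAbs) := by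
        have := hb.dec (tl i0 x)
        gcongr
    _ = _ := by unfold tl; ring

lemma FF_mem {q : V m → Bool} {lam r A : ℝ} {χ : V m → ℂ} (hb : Bd q lam r A χ) (R : ℕ)
    {σ : ℤ} (hσ : σ = 1 ∨ σ = -1) {ζ : ℂ} (hζ : ‖ζ‖ < 1) : Memℓp (FF i0 R ζ σ χ) 2 := by
  have hr0 := hb.r0
  have hA0 := hb.A0
  have h1 : ∑' x : V (m + 1), ENNReal.ofReal
      (A * (‖fh ζ (σ * x i0 - R)‖ * ∏ i : Fin m, r ^ (x (i0.succAbove i)).natAbs)) ≠ ∞ := by
    have e : ∀ x : V (m + 1), ENNReal.ofReal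
        (A * (‖fh ζ (σ * x i0 - R)‖ * ∏ i : Fin m, r ^ (x (i0.succAbove i)).natAbs)) =
        ENNReal.ofReal A * ((fun t : ℤ => ENNReal.ofReal ‖fh ζ (σ * t - R)‖) (x i0) *
        ∏ i : Fin m, (fun t : ℤ => ENNReal.ofReal (r ^ t.natAbs)) (x (i0.succAbove i))) := by
      intro x
      simp only
      rw [← ENNReal.ofReal_prod_of_nonneg (fun i _ => by positivity),
        ← ENNReal.ofReal_mul (norm_nonneg _), ← ENNReal.ofReal_mul hA0.le]
    rw [tsum_congr e, ENNReal.tsum_mul_left, tsum_prod0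
      (fun t : ℤ => ENNReal.ofReal ‖fh ζ (σ * t - R)‖)
      (fun t : ℤ => ENNReal.ofReal (r ^ t.natAbs)) i0]
    exact ENNReal.mul_ne_top ENNReal.ofReal_ne_top (ENNReal.mul_ne_top
      (sum_fh_ne_top hζ hσ R) (ENNReal.pow_ne_top (geo_ne_top hr0.le hb.r1)))
  have h2 : Summable fun x : V (m + 1) =>
      A * (‖fh ζ (σ * x i0 - R)‖ * ∏ i : Fin m, r ^ (x (i0.succAbove i)).natAbs) := by
    have h3 := ENNReal.summable_toReal h1
    refine h3.congr fun x => ?_
    rw [ENNReal.toReal_ofReal (by positivity)]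
  have h3 : Memℓp (FF i0 R ζ σ χ) 1 := by
    rw [memℓp_gen_iff (by norm_num)]
    have : Summable fun x : V (m + 1) => ‖FF i0 R ζ σ χ x‖ :=
      Summable.of_nonneg_of_le (fun x => norm_nonneg _) (fun x => FF_le hb R σ ζ x) h2
    simpa using this
  exact h3.of_exponent_ge (by norm_num)

/-- the norm of the approximate eigenfunction -/
lemma FF_norm {q : V m → Bool} {lam r A : ℝ} {χ : V m → ℂ} (hb : Bd q lam r A χ) (R : ℕ)
    {σ : ℤ} (hσ : σ = 1 ∨ σ = -1) {ζ : ℂ} (hζ : ‖ζ‖ < 1) (y : V m) :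
    ‖χ y‖ ^ 2 ≤ (1 - ‖ζ‖ ^ 2) *
      ‖(⟨FF i0 R ζ σ χ, FF_mem hb R hσ hζ⟩ : W (m + 1))‖ ^ 2 := by
  set F : W (m + 1) := ⟨FF i0 R ζ σ χ, FF_mem hb R hσ hζ⟩ with hF
  have hn : ‖F‖ ^ 2 = ∑' x, ‖F x‖ ^ 2 := by
    have := lp.norm_rpow_eq_tsum (p := 2) (by norm_num) F
    simpa using this
  have hs : Summable fun x => ‖F x‖ ^ 2 := by
    have h := lp.memℓp F
    rw [memℓp_gen_iff (by norm_num)] at h
    simpa using h
  set g : ℕ → V (m + 1) := fun k => i0.insertNth (σ * ((k : ℤ) + R)) y with hg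
  have hginj : Function.Injective g := by
    intro a b hab
    have h1 := congrFun hab i0
    simp only [hg, Fin.insertNth_apply_same] at h1
    rcases hσ with h | h <;> rw [h] at h1 <;> omega
  have h1 := tsum_comp_le_tsum_of_inj hs (fun x => by positivity) hginj
  have h2 : ∀ k : ℕ, ((fun x => ‖F x‖ ^ 2) ∘ g) k = (‖ζ‖ ^ 2) ^ k * ‖χ y‖ ^ 2 := by
    intro k
    have e1 : F (g k) = ζ ^ k * χ y := by
      change FF i0 R ζ σ χ (g k) = _
      unfold FF
      have e2 : g k i0 = σ * ((k : ℤ) + R) := by simp [hg]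
      have e3 : tl i0 (g k) = y := by
        funext i
        simp [hg, tl]
      rw [e2, e3]
      congr 1
      have e4 : σ * (σ * ((k : ℤ) + R)) - R = k := by rcases hσ with h | h <;> rw [h] <;> ring
      rw [e4]
      unfold fh
      rw [if_pos (by omega), Int.toNat_natCast]
    simp only [Function.comp]
    rw [e1, norm_mul, norm_pow, mul_pow, ← pow_mul, ← pow_mul, mul_comm k 2]
  have hz2 : ‖ζ‖ ^ 2 < 1 := by
    have := norm_nonneg ζ
    nlinarith
  rw [tsum_congr h2, tsum_mul_right, tsum_geometric_of_lt_one (by positivity) hz2, ← hn] at h1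
  have hpos : 0 < 1 - ‖ζ‖ ^ 2 := by linarith
  calc ‖χ y‖ ^ 2 = (1 - ‖ζ‖ ^ 2) * ((1 - ‖ζ‖ ^ 2)⁻¹ * ‖χ y‖ ^ 2) := by
        field_simp
    _ ≤ _ := mul_le_mul_of_nonneg_left h1 hpos.le

/-- the channel theorem -/
theorem channel {ω : V (m + 1) → Bool} {H : W (m + 1) →L[ℂ] W (m + 1)} (hH : IsH ω H)
    {q : V m → Bool} {lam r A : ℝ} {χ : V m → ℂ} (hb : Bd q lam r A χ)
    (i0 : Fin (m + 1)) (R : ℕ) {σ : ℤ} (hσ : σ = 1 ∨ σ = -1)
    (hch : ∀ x : V (m + 1), (R : ℤ) < σ * x i0 →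
      (∀ i : Fin m, |(x (i0.succAbove i) : ℝ)| ≤ cc r * Real.log (2 + |(x i0 : ℝ)|)) →
        ω x = q (tl i0 x))
    {α β : ℝ} (hαβ : α < β) (h1 : lam ≤ α) (h2 : β ≤ lam + 4) :
    ∃ x, ¬ ((spm hH.isSelfAdjoint (dl x)).restrict (Set.Ioo α β)) ⟂ₘ volume := by
  have hsa := hH.isSelfAdjoint
  obtain ⟨y, hy⟩ := hb.ne
  have hχ0 : 0 < ‖χ y‖ := norm_pos_iff.2 hy
  have hA0 := hb.A0
  set κ : ℝ := (β - α) / 8 with hκ
  have hκ0 : 0 < κ := by rw [hκ]; linarith
  have hκ1 : κ ≤ 1 / 2 := by rw [hκ]; linarith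
  set α' : ℝ := (3 * α + β) / 4 with hα'
  set β' : ℝ := (α + 3 * β) / 4 with hβ'
  have hαβ' : α' < β' := by rw [hα', hβ']; linarith
  set K : ℝ := 6 * ((R : ℝ) + 3) ^ 2 * A with hK
  have hK0 : 0 ≤ K := by rw [hK]; positivity
  have key := crit hsa (ι := V (m + 1)) (e := fun x => dl x) (fun x => by
      unfold dl
      rw [lp.norm_single (by norm_num)]
      simp)
    (a := fun x => ENNReal.ofReal (K * GG i0 r x)) (by
      have e : ∀ x : V (m + 1), ENNReal.ofReal (K * GG i0 r x) =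
          ENNReal.ofReal K * ENNReal.ofReal (GG i0 r x) := fun x =>
        ENNReal.ofReal_mul hK0
      rw [tsum_congr e, ENNReal.tsum_mul_left]
      exact ENNReal.mul_ne_top ENNReal.ofReal_ne_top (GG_sum hb.r0 hb.r1)) hαβ'
    (c := ENNReal.ofReal (Real.sqrt κ * ‖χ y‖)) (by
      rw [ne_eq, ENNReal.ofReal_eq_zero, not_le]
      positivity) ?_
  · obtain ⟨x, hx⟩ := key
    refine ⟨x, fun hcon => hx ?_⟩
    refine hcon.mono ?_ le_rfl
    exact Measure.restrict_mono (Set.Ioo_subset_Ioo (by rw [hα']; linarith) (by rw [hβ']; linarith))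
      le_rfl
  · intro k E hE
    set η : ℝ := 1 / ((k : ℝ) + 1) with hη
    have hη0 : 0 < η := eps_pos k
    have hη1 : η ≤ 1 := by
      rw [hη, div_le_one (by positivity)]
      linarith [(Nat.cast_nonneg k : (0 : ℝ) ≤ k)]
    set z : ℂ := (E : ℂ) + (η : ℂ) * I with hz
    have hzim : z.im = η := by simp [hz]
    have hzre : z.re = E := by simp [hz]
    have hzim0 : z.im ≠ 0 := by rw [hzim]; exact hη0.ne'
    set w : ℂ := 2 + lam - z with hw
    have hwim : w.im = -η := by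
      rw [hw]; simp [hzim]
    have hwre : w.re = 2 + lam - E := by
      rw [hw]; simp [hzre]
    obtain ⟨ζ, -, hζ1, hζ, hζc⟩ := exists_zeta (w := w) (by rw [hwim]; linarith)
    have hEl : E < β' := hE.2
    have hEg : α' < E := hE.1
    have hwre1 : w.re / 2 ≤ 1 - κ := by
      rw [hwre, hκ]; rw [hα'] at hEg; linarith
    have hwre2 : -(1 - κ) ≤ w.re / 2 := by
      rw [hwre, hκ]; rw [hβ'] at hEl; linarith
    have hw3 : ‖w‖ ≤ 3 := by
      refine (Complex.norm_le_abs_re_add_abs_im w).trans ?_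
      rw [hwim, abs_neg, abs_of_pos hη0]
      have : |w.re| ≤ 2 := by rw [abs_le]; constructor <;> linarith
      linarith
    have hc0 := hζc κ hκ0.le (by
      have h3 : (w.re / 2) ^ 2 ≤ (1 - κ) ^ 2 := sq_le_sq' hwre2 hwre1
      nlinarith)
    rw [hwim, neg_neg] at hc0
    set F : W (m + 1) := ⟨FF i0 R ζ σ χ, FF_mem hb R hσ hζ1⟩ with hF
    set φ : W (m + 1) := H F - z • F with hφ
    have hφx : ∀ x, φ x = hop ω (FF i0 R ζ σ χ) x - z * FF i0 R ζ σ χ x := by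
      intro x
      have e1 : φ x = (H F) x - z * F x := rfl
      rw [e1, hH F x]
    have hRφ : Rz H z φ = F := by
      have h3 := Ring.inverse_mul_cancel _ (isUnit_sub hsa hzim0)
      have h4 := congrArg (fun B : W (m + 1) →L[ℂ] W (m + 1) => B F) h3
      simpa [Rz, hφ] using h4
    have hbd := rz_bound (Rz H z) φ (b := fun x => K * GG i0 r x) fun x => by
      rw [hφx]
      exact phi_bound hb hσ hw hw3 hζ1.le hζ hch x
    rw [hRφ] at hbd
    have hnorm := FF_norm (i0 := i0) hb R hσ hζ1 y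
    have hsg : ∀ x, sg H (dl x) k E = ENNReal.ofReal (Real.sqrt η) * ‖Rz H z (dl x)‖ₑ := by
      intro x
      unfold sg gg
      rw [← hη, im_inner hsa hzim0, hzim]
      rw [← ofReal_norm, ← ENNReal.ofReal_mul (Real.sqrt_nonneg _),
        ENNReal.ofReal_rpow_of_nonneg (by positivity) (by norm_num)]
      congr 1
      rw [← Real.sqrt_eq_rpow, Real.sqrt_mul hη0.le, Real.sqrt_sq (norm_nonneg _)]
    have hmain : Real.sqrt κ * ‖χ y‖ ≤ Real.sqrt η * ‖F‖ := by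
      rw [← Real.sqrt_sq (norm_nonneg (χ y)), ← Real.sqrt_sq (norm_nonneg F),
        ← Real.sqrt_mul hκ0.le, ← Real.sqrt_mul hη0.le]
      apply Real.sqrt_le_sqrt
      calc κ * ‖χ y‖ ^ 2 ≤ κ * ((1 - ‖ζ‖ ^ 2) * ‖F‖ ^ 2) := by gcongr
        _ = (κ * (1 - ‖ζ‖ ^ 2)) * ‖F‖ ^ 2 := by ring
        _ ≤ η * ‖F‖ ^ 2 := by gcongr
    calc ENNReal.ofReal (Real.sqrt κ * ‖χ y‖) ≤ ENNReal.ofReal (Real.sqrt η * ‖F‖) :=
          ENNReal.ofReal_le_ofReal hmain
      _ = ENNReal.ofReal (Real.sqrt η) * ‖F‖ₑ := by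
          rw [ENNReal.ofReal_mul (Real.sqrt_nonneg _), ofReal_norm]
      _ ≤ ENNReal.ofReal (Real.sqrt η) *
          ∑' x, ENNReal.ofReal (K * GG i0 r x) * ‖Rz H z (dl x)‖ₑ := by gcongr
      _ = ∑' x, ENNReal.ofReal (K * GG i0 r x) * sg H (dl x) k E := by
          rw [← ENNReal.tsum_mul_left]
          refine tsum_congr fun x => ?_
          rw [hsg]; ring

end Pool.Agent.T9h50.AC
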