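import Pool.Agent.TH980.IM.Fc

set_option autoImplicit false

/-! A criterion for absolutely continuous spectrum: if all the spectral measures of a summable
family are singular on an interval then the weighted sum of the square roots of the imaginary parts
of their Borel transforms tends to zero in mean. -/

open MeasureTheory Filter Topology Set
open scoped ENNReal NNReal InnerProductSpace

namespace Pool.Agent.T9h50.AC

open Pool.Agent.H12R2.And (Rz isUnit_sub sub_Rz im_inner norm_Rz_le gg gg_meas gg_int zim)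
open Pool.Agent.TH980.IM (spm BT_spm ae_im_tendsto kap BT)

variable {X : Type} [NormedAddCommGroup X] [InnerProductSpace ℂ X] [CompleteSpace X]
variable {T : X →L[ℂ] X}

/-- the square root of the imaginary part of the Borel transform -/
noncomputable def sg (T : X →L[ℂ] X) (u : X) (k : ℕ) (E : ℝ) : ℝ≥0∞ :=
  (gg T u (1 / ((k : ℝ) + 1)) E) ^ (1 / 2 : ℝ)

lemma eps_pos (k : ℕ) : (0 : ℝ) < 1 / ((k : ℝ) + 1) := by positivity

omit [CompleteSpace X] in
lemma sg_sq (u : X) (k : ℕ) (E : ℝ) : sg T u k E * sg T u k E = gg T u (1 / ((k : ℝ) + 1)) E := by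
  unfold sg
  rw [← ENNReal.rpow_add_of_nonneg _ _ (by norm_num) (by norm_num)]
  norm_num

lemma sg_meas (hT : IsSelfAdjoint T) (u : X) (k : ℕ) : Measurable (sg T u k) :=
  (gg_meas hT u (eps_pos k)).pow_const _

lemma gg_tendsto (hT : IsSelfAdjoint T) (u : X) {J : Set ℝ} (hJ : MeasurableSet J)
    (hs : ((spm hT u).restrict J) ⟂ₘ volume) :
    ∀ᵐ E ∂(volume.restrict J), Tendsto (fun k : ℕ => sg T u k E) atTop (𝓝 0) := by
  have h1 := hs.rnDeriv_ae_eq_zero
  have h2 := Measure.rnDeriv_restrict (spm hT u) volume hJ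
  rw [ae_restrict_iff' hJ]
  filter_upwards [h1, h2, ae_im_tendsto (spm hT u)] with E e1 e2 e3 hE
  have e4 : (spm hT u).rnDeriv volume E = 0 := by
    rw [e1, indicator_of_mem hE] at e2
    simpa using e2.symm
  rw [e4] at e3
  simp only [ENNReal.toReal_zero, mul_zero] at e3
  have e5 : Tendsto (fun k : ℕ => 1 / ((k : ℝ) + 1)) atTop (𝓝[>] 0) :=
    tendsto_nhdsWithin_iff.2 ⟨tendsto_one_div_add_atTop_nhds_zero_nat,
      Eventually.of_forall fun k => eps_pos k⟩
  have e6 := e3.comp e5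
  have e7 : Tendsto (fun k : ℕ => gg T u (1 / ((k : ℝ) + 1)) E) atTop (𝓝 0) := by
    unfold gg
    rw [← ENNReal.ofReal_zero]
    refine (ENNReal.continuous_ofReal.tendsto 0).comp (e6.congr fun k => ?_)
    simp only [Function.comp]
    rw [BT_spm hT u (by rw [zim]; exact (eps_pos k).ne')]
  have e8 := (ENNReal.continuous_rpow_const (y := (1 / 2 : ℝ))).tendsto 0
  rw [ENNReal.zero_rpow_of_pos (by norm_num)] at e8
  exact e8.comp e7

lemma le_one_add_sq (x : ℝ≥0∞) : x ≤ 1 + x * x := by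
  rcases le_total x 1 with h | h
  · exact h.trans le_self_add
  · calc x = x * 1 := (mul_one x).symm
      _ ≤ x * x := by gcongr
      _ ≤ 1 + x * x := le_add_self

lemma le_min_add (x : ℝ≥0∞) {M : ℝ≥0∞} (hM : M ≠ 0) (hM' : M ≠ ∞) : x ≤ min x M + x * x / M := by
  rcases le_total x M with h | h
  · rw [min_eq_left h]; exact le_self_add
  · refine le_trans ?_ le_add_self
    rw [ENNReal.le_div_iff_mul_le (Or.inl hM) (Or.inl hM')]
    gcongr

lemma int_le (hT : IsSelfAdjoint T) {u : X} (hu : ‖u‖ ≤ 1) {J : Set ℝ} {N : ℝ} (hN1 : 1 ≤ N)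
    (hN : 2 * ‖T‖ ≤ N) (hJN : J ⊆ Ioc (-N) N) (k : ℕ) :
    ∫⁻ E in J, sg T u k E ≤ volume J + 8 := by
  have hk : 1 / ((k : ℝ) + 1) ≤ N := by
    refine le_trans ?_ hN1
    rw [div_le_one (by positivity)]
    linarith [(Nat.cast_nonneg k : (0 : ℝ) ≤ k)]
  calc ∫⁻ E in J, sg T u k E ≤ ∫⁻ E in J, (1 + gg T u (1 / ((k : ℝ) + 1)) E) := by
        refine lintegral_mono fun E => ?_
        rw [← sg_sq]; exact le_one_add_sq _
    _ = volume J + ∫⁻ E in J, gg T u (1 / ((k : ℝ) + 1)) E := by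
        rw [lintegral_add_left measurable_const]; simp
    _ ≤ volume J + ENNReal.ofReal (8 * ‖u‖ ^ 2) := by
        gcongr; exact gg_int hT u (eps_pos k) hk hN hJN
    _ ≤ volume J + 8 := by
        gcongr
        rw [← ENNReal.ofReal_ofNat 8]
        apply ENNReal.ofReal_le_ofReal
        have := norm_nonneg u
        nlinarith

lemma int_tendsto (hT : IsSelfAdjoint T) {u : X} (hu : ‖u‖ ≤ 1) {J : Set ℝ} {N : ℝ} (hN1 : 1 ≤ N)
    (hN : 2 * ‖T‖ ≤ N) (hJN : J ⊆ Ioc (-N) N) (hJ : MeasurableSet J)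
    (hs : ((spm hT u).restrict J) ⟂ₘ volume) :
    Tendsto (fun k : ℕ => ∫⁻ E in J, sg T u k E) atTop (𝓝 0) := by
  have hvJ : volume J ≠ ∞ := by
    refine ((measure_mono hJN).trans_lt ?_).ne
    rw [Real.volume_Ioc]; exact ENNReal.ofReal_lt_top
  rw [ENNReal.tendsto_nhds_zero]
  intro ε hε
  obtain ⟨M, hM⟩ : ∃ M : ℕ, 0 < M ∧ (8 : ℝ≥0∞) / M ≤ ε / 2 := by
    have hε2 : ε / 2 ≠ 0 := (ENNReal.half_pos hε.ne').ne'
    have h1 : Tendsto (fun M : ℕ => (8 : ℝ≥0∞) / M) atTop (𝓝 0) := by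
      have := ENNReal.Tendsto.const_div (a := (8 : ℝ≥0∞)) ENNReal.tendsto_nat_nhds_top
        (Or.inr (by norm_num))
      simpa using this
    have h2 := (ENNReal.tendsto_nhds_zero.1 h1 (ε / 2) (pos_iff_ne_zero.2 hε2)).and
      (eventually_gt_atTop 0)
    obtain ⟨M, h3, h4⟩ := h2.exists
    exact ⟨M, h4, h3⟩
  have hM0 : (M : ℝ≥0∞) ≠ 0 := by exact_mod_cast hM.1.ne'
  have hMt : (M : ℝ≥0∞) ≠ ∞ := ENNReal.natCast_ne_top M
  have h1 : Tendsto (fun k : ℕ => ∫⁻ E in J, min (sg T u k E) M) atTop (𝓝 0) := by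
    have h2 := tendsto_lintegral_of_dominated_convergence (μ := volume.restrict J)
      (F := fun (k : ℕ) E => min (sg T u k E) (M : ℝ≥0∞)) (f := fun _ => 0)
      (fun _ => (M : ℝ≥0∞)) (fun k => (sg_meas hT u k).min measurable_const)
      (fun k => ae_of_all _ fun E => min_le_right _ _)
      (by rw [lintegral_const, Measure.restrict_apply_univ]; exact ENNReal.mul_ne_top hMt hvJ)
      (by
        filter_upwards [gg_tendsto hT u hJ hs] with E hE
        have := hE.min (tendsto_const_nhds (x := (M : ℝ≥0∞)))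
        simpa using this)
    simpa using h2
  have h3 := ENNReal.tendsto_nhds_zero.1 h1 (ε / 2) (ENNReal.half_pos hε.ne')
  filter_upwards [h3] with k hk
  have hkN : 1 / ((k : ℝ) + 1) ≤ N := by
    refine le_trans ?_ hN1
    rw [div_le_one (by positivity)]
    linarith [(Nat.cast_nonneg k : (0 : ℝ) ≤ k)]
  calc ∫⁻ E in J, sg T u k E
      ≤ ∫⁻ E in J, (min (sg T u k E) M + gg T u (1 / ((k : ℝ) + 1)) E / M) := by
        refine lintegral_mono fun E => ?_
        rw [← sg_sq]; exact le_min_add _ hM0 hMt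
    _ = (∫⁻ E in J, min (sg T u k E) M) + ∫⁻ E in J, gg T u (1 / ((k : ℝ) + 1)) E / M :=
        lintegral_add_left ((sg_meas hT u k).min measurable_const) _
    _ = (∫⁻ E in J, min (sg T u k E) M) + (∫⁻ E in J, gg T u (1 / ((k : ℝ) + 1)) E) / M := by
        congr 1
        rw [ENNReal.div_eq_inv_mul, ← lintegral_const_mul _ (gg_meas hT u (eps_pos k))]
        exact lintegral_congr fun E => ENNReal.div_eq_inv_mul
    _ ≤ ε / 2 + 8 / M := by
        refine add_le_add hk (ENNReal.div_le_div_right ?_ _)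
        refine (gg_int hT u (eps_pos k) hkN hN hJN).trans ?_
        rw [← ENNReal.ofReal_ofNat 8]
        apply ENNReal.ofReal_le_ofReal
        have := norm_nonneg u
        nlinarith
    _ ≤ ε / 2 + ε / 2 := add_le_add le_rfl hM.2
    _ = ε := ENNReal.add_halves ε

/-- the criterion -/
theorem crit (hT : IsSelfAdjoint T) {ι : Type} [Countable ι] {e : ι → X} (he : ∀ i, ‖e i‖ ≤ 1)
    {a : ι → ℝ≥0∞} (ha : ∑' i, a i ≠ ∞) {α β : ℝ} (hαβ : α < β) {c : ℝ≥0∞} (hc : c ≠ 0)
    (h : ∀ k : ℕ, ∀ E ∈ Ioo α β, c ≤ ∑' i, a i * sg T (e i) k E) :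
    ∃ i, ¬ ((spm hT (e i)).restrict (Ioo α β)) ⟂ₘ volume := by
  by_contra hcon
  push Not at hcon
  set J := Ioo α β with hJdef
  set N : ℝ := max (max 1 (2 * ‖T‖)) (max |α| |β| + 1) with hNdef
  have hN1 : 1 ≤ N := (le_max_left _ _).trans (le_max_left _ _)
  have hN2 : 2 * ‖T‖ ≤ N := (le_max_right _ _).trans (le_max_left _ _)
  have hN3 : max |α| |β| + 1 ≤ N := le_max_right _ _
  have hJN : J ⊆ Ioc (-N) N := by
    intro x hx
    have h1 := le_max_left |α| |β|
    have h2 := le_max_right |α| |β|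
    have h3 := neg_abs_le α
    have h4 := le_abs_self β
    exact ⟨by linarith [hx.1], by linarith [hx.2]⟩
  have hvJ : volume J ≠ ∞ := by rw [hJdef, Real.volume_Ioo]; exact ENNReal.ofReal_ne_top
  have hvJ0 : volume J ≠ 0 := by
    rw [hJdef, Real.volume_Ioo]
    simpa using hαβ
  let _ : MeasurableSpace ι := ⊤
  have hmc : MeasurableSingletonClass ι := ⟨fun _ => trivial⟩
  have hlim : Tendsto (fun k : ℕ => ∑' i, a i * ∫⁻ E in J, sg T (e i) k E) atTop (𝓝 0) := by
    have h2 := tendsto_lintegral_of_dominated_convergence (μ := (Measure.count : Measure ι))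
      (F := fun (k : ℕ) i => a i * ∫⁻ E in J, sg T (e i) k E) (f := fun _ => 0)
      (fun i => a i * (volume J + 8)) (fun k => measurable_from_top)
      (fun k => ae_of_all _ fun i => mul_le_mul' le_rfl (int_le hT (he i) hN1 hN2 hJN k))
      (by
        rw [lintegral_count, ENNReal.tsum_mul_right]
        exact ENNReal.mul_ne_top ha (ENNReal.add_ne_top.2 ⟨hvJ, by norm_num⟩))
      (ae_of_all _ fun i => by
        have h3 := int_tendsto hT (he i) hN1 hN2 hJN measurableSet_Ioo (hcon i)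
        have h4 := ENNReal.Tendsto.const_mul (a := a i) h3
          (Or.inr (ne_top_of_le_ne_top ha (ENNReal.le_tsum i)))
        simpa using h4)
    simp only [lintegral_count] at h2
    simpa using h2
  have hge : ∀ k : ℕ, c * volume J ≤ ∑' i, a i * ∫⁻ E in J, sg T (e i) k E := by
    intro k
    calc c * volume J = ∫⁻ _E in J, c := by rw [lintegral_const, Measure.restrict_apply_univ]
      _ ≤ ∫⁻ E in J, ∑' i, a i * sg T (e i) k E :=
          setLIntegral_mono' measurableSet_Ioo fun E hE => h k E hE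
      _ = ∑' i, ∫⁻ E in J, a i * sg T (e i) k E :=
          lintegral_tsum fun i => ((sg_meas hT (e i) k).const_mul _).aemeasurable
      _ = _ := tsum_congr fun i => lintegral_const_mul _ (sg_meas hT (e i) k)
  have h5 : c * volume J ≤ 0 := ge_of_tendsto hlim (Eventually.of_forall hge)
  rw [nonpos_iff_eq_zero, mul_eq_zero] at h5
  rcases h5 with h5 | h5
  · exact hc h5
  · exact hvJ0 h5

end Pool.Agent.T9h50.AC
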